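import Pool.Agent.U542.Lech.Alg

/-!
# Power series rings: constants, and length versus dimension
-/

set_option autoImplicit false

namespace Pool.Agent.U542.Lech

open Finset MvPowerSeries

section

variable {k : Type*} [Field k] {n : ℕ}

theorem mem_span_of (J : Finset (Fin n)) : ∀ f : MvPowerSeries (Fin n) k,
    (∀ α : Fin n →₀ ℕ, (∀ l ∈ J, α l = 0) → coeff α f = 0) →
      f ∈ Ideal.span (Set.range (X : Fin n → MvPowerSeries (Fin n) k)) := by
  induction J using Finset.induction_on with
  | empty =>
    intro f hf
    have : f = 0 := by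
      ext α
      rw [hf α (by simp), map_zero]
    rw [this]
    exact Ideal.zero_mem _
  | insert j J hj ih =>
    intro f hf
    let g : MvPowerSeries (Fin n) k := fun α => if α j = 0 then coeff α f else 0
    have hg : ∀ α : Fin n →₀ ℕ, coeff α g = if α j = 0 then coeff α f else 0 := fun α => rfl
    have hd : (X j : MvPowerSeries (Fin n) k) ∣ f - g := by
      rw [X_dvd_iff]
      intro α hα
      rw [map_sub, hg, if_pos hα, sub_self]
    have h1 : f = (f - g) + g := by ring
    rw [h1]
    apply Ideal.add_mem
    · exact Ideal.mem_of_dvd _ hd (Ideal.subset_span (Set.mem_range_self j))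
    · apply ih
      intro α hα
      rw [hg]
      split_ifs with h
      · apply hf
        intro l hl
        rcases Finset.mem_insert.mp hl with rfl | hl
        · exact h
        · exact hα l hl
      · rfl

theorem const_sub_mem (f : MvPowerSeries (Fin n) k) : ∃ c : k,
    f - algebraMap k (MvPowerSeries (Fin n) k) c ∈
      Ideal.span (Set.range (X : Fin n → MvPowerSeries (Fin n) k)) := by
  refine ⟨constantCoeff f, mem_span_of univ _ ?_⟩
  intro α hα
  have h0 : α = 0 := by
    ext l
    exact hα l (Finset.mem_univ l)
  rw [h0, map_sub, coeff_zero_eq_constantCoeff_apply, coeff_zero_eq_constantCoeff_apply,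
    ← MvPowerSeries.c_eq_algebraMap, constantCoeff_C, sub_self]

theorem finrank_residue (J : Ideal (MvPowerSeries (Fin n) k)) (hJ : J.IsMaximal) :
    Module.finrank k (MvPowerSeries (Fin n) k ⧸ J) ≤ 1 := by
  have hsurj : Function.Surjective (algebraMap k (MvPowerSeries (Fin n) k ⧸ J)) := by
    intro q
    obtain ⟨f, rfl⟩ := Ideal.Quotient.mk_surjective q
    refine ⟨constantCoeff f, ?_⟩
    rw [IsScalarTower.algebraMap_apply k (MvPowerSeries (Fin n) k) (MvPowerSeries (Fin n) k ⧸ J),
      Ideal.Quotient.algebraMap_eq, ← sub_eq_zero, ← map_sub, Ideal.Quotient.eq_zero_iff_mem,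
      IsLocalRing.eq_maximalIdeal hJ, IsLocalRing.mem_maximalIdeal, mem_nonunits_iff,
      MvPowerSeries.isUnit_iff_constantCoeff, isUnit_iff_ne_zero, not_not, map_sub, sub_eq_zero]
    rw [← MvPowerSeries.c_eq_algebraMap]
    simp
  have h1 := LinearMap.finrank_range_le (Algebra.linearMap k (MvPowerSeries (Fin n) k ⧸ J))
  rw [LinearMap.range_eq_top.mpr hsurj, finrank_top, Module.finrank_self] at h1
  exact h1

theorem finrank_le_length {M : Type*} [AddCommGroup M] [Module (MvPowerSeries (Fin n) k) M]
    (h : IsFiniteLength (MvPowerSeries (Fin n) k) M) :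
    ∃ N : ℕ, Module.length (MvPowerSeries (Fin n) k) M = N ∧
      ∀ [Module k M] [IsScalarTower k (MvPowerSeries (Fin n) k) M], Module.finrank k M ≤ N := by
  induction h with
  | of_subsingleton =>
    refine ⟨0, Module.length_eq_zero, ?_⟩
    intro _ _
    rw [Module.finrank_zero_of_subsingleton]
  | @of_simple_quotient M _ _ N hs hN ih =>
    obtain ⟨a, ha, ih⟩ := ih
    refine ⟨a + 1, ?_, ?_⟩
    · rw [Module.length_eq_add_of_exact N.subtype N.mkQ N.subtype_injective N.mkQ_surjective
        (LinearMap.exact_subtype_mkQ N), ha, Module.length_eq_one_iff.mpr hs]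
      rfl
    · intro _ _
      have h1 := ih
      obtain ⟨J, hJ, ⟨e⟩⟩ := (isSimpleModule_iff_quot_maximal
        (R := MvPowerSeries (Fin n) k) (M := M ⧸ N)).mp hs
      by_cases hfin : Module.Finite k M
      · have h7 := Submodule.finrank_quotient_add_finrank (N.restrictScalars k)
        have h8 : Module.finrank k (M ⧸ N.restrictScalars k) ≤ 1 := by
          rw [((Submodule.Quotient.restrictScalarsEquiv k N).trans (e.restrictScalars k)).finrank_eq]
          exact finrank_residue J hJ
        have h9 : Module.finrank k (N.restrictScalars k) = Module.finrank k N := rfl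
        rw [h9] at h7
        omega
      · rw [Module.finrank_of_not_finite hfin]
        omega

end

end Pool.Agent.U542.Lech
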