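import Pool.Agent.U542.Lech.Alg

/-!
# Averaging over all orderings of the coordinates
-/

set_option autoImplicit false

namespace Pool.Agent.U542.Lech

open Finset

section

variable {R : Type*} [CommRing R] {k : Type*} [Field k] [Algebra k R] {d : ℕ}

theorem mon_perm (y : Fin (d + 1) → R) (u : Fin (d + 1) → ℕ) (τ : Equiv.Perm (Fin (d + 1))) :
    mon (y ∘ τ) (u ∘ τ) = mon y u :=
  Equiv.prod_comp τ fun i => y i ^ u i

theorem wt_perm (w u : Fin (d + 1) → ℕ) (τ : Equiv.Perm (Fin (d + 1))) :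
    wt (w ∘ τ) (u ∘ τ) = wt w u :=
  Equiv.sum_comp τ fun i => u i * w i

theorem U_perm_le (y : Fin (d + 1) → R) (w : Fin (d + 1) → ℕ) (τ : Equiv.Perm (Fin (d + 1)))
    (a : ℕ) : U k y w a ≤ U k (y ∘ τ) (w ∘ τ) a := by
  apply Submodule.span_mono
  rintro _ ⟨v, hv, rfl⟩
  exact ⟨v ∘ τ, by rwa [wt_perm], mon_perm y v τ⟩

theorem Good.perm {y : Fin (d + 1) → R} {w : Fin (d + 1) → ℕ} {I : Ideal R}
    {B : Finset (Fin (d + 1) → ℕ)} (hB : Good k y w I B) (τ : Equiv.Perm (Fin (d + 1))) :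
    Good k (y ∘ τ) (w ∘ τ) I (B.image fun u => u ∘ τ) := by
  intro u hu
  have h1 : u ∘ τ.symm ∉ B := by
    intro h
    apply hu
    rw [Finset.mem_image]
    refine ⟨_, h, ?_⟩
    funext i
    simp
  obtain ⟨F, hF, hFU⟩ := hB _ h1
  have h2 : (u ∘ τ.symm) ∘ τ = u := by
    funext i
    simp
  refine ⟨F, hF, ?_⟩
  have h3 := U_perm_le (k := k) y w τ _ hFU
  rw [← mon_perm y (u ∘ τ.symm) τ, ← wt_perm w (u ∘ τ.symm) τ, h2] at h3
  exact h3

theorem Coord.perm {m : Ideal R} {y : Fin (d + 1) → R} (h : Coord k m y)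
    (τ : Equiv.Perm (Fin (d + 1))) : Coord k m (y ∘ τ) := by
  refine ⟨?_, h.const⟩
  rw [h.span, EquivLike.range_comp]

/-- the support -/
def su (u : Fin (d + 1) → ℕ) : Finset (Fin (d + 1)) := univ.filter fun i => u i ≠ 0

theorem suppN_eq (u : Fin (d + 1) → ℕ) : suppN u = (su u).map Fin.valEmbedding := rfl

theorem su_perm (u : Fin (d + 1) → ℕ) (τ : Equiv.Perm (Fin (d + 1))) :
    su (u ∘ τ) = (su u).map τ.symm.toEmbedding := by
  ext i
  simp only [su, Finset.mem_filter, Finset.mem_univ, true_and, Finset.mem_map_equiv,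
    Function.comp_apply, Equiv.symm_symm]

/-- the counting function of a set of exponents -/
def FF (n r : ℕ) (W : Finset (Fin (d + 1))) : ℕ :=
  if (∀ i ∈ W, (i : ℕ) < r) then ∑ s ∈ range n, V n (W.map Fin.valEmbedding) (r - 1) s else 0

theorem FF_su (n r : ℕ) (u : Fin (d + 1) → ℕ) :
    (if (∀ i : Fin (d + 1), r ≤ (i : ℕ) → u i = 0) then
        ∑ s ∈ range n, V n (suppN u) (r - 1) s else 0) = FF n r (su u) := by
  rw [FF, ← suppN_eq]
  congr 1
  apply propext
  constructor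
  · intro h i hi
    by_contra h1
    exact (Finset.mem_filter.mp hi).2 (h i (by omega))
  · intro h i hi
    by_contra h1
    have := h i (Finset.mem_filter.mpr ⟨Finset.mem_univ _, h1⟩)
    omega

theorem sum_FF_le (n r w : ℕ) (hr : 1 ≤ r) :
    ((∑ W ∈ powersetCard w (univ : Finset (Fin (d + 1))), FF n r W : ℕ) : ℝ) ≤
      ((n : ℝ) + r) ^ r * eta r w := by
  refine le_trans ?_ (V_sum_le n r w hr)
  rw [Nat.cast_le]
  have h1 : ∑ W ∈ powersetCard w (univ : Finset (Fin (d + 1))), FF n r W =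
      ∑ W ∈ (powersetCard w (univ : Finset (Fin (d + 1)))).filter (fun W : Finset (Fin (d + 1)) => ∀ i ∈ W, (i : ℕ) < r),
        ∑ s ∈ range n, V n (W.map Fin.valEmbedding) (r - 1) s := by
    rw [Finset.sum_filter]
    rfl
  rw [h1]
  have h2 : ∑ W ∈ (powersetCard w (univ : Finset (Fin (d + 1)))).filter (fun W : Finset (Fin (d + 1)) => ∀ i ∈ W, (i : ℕ) < r),
        ∑ s ∈ range n, V n (W.map Fin.valEmbedding) (r - 1) s =
      ∑ W ∈ ((powersetCard w (univ : Finset (Fin (d + 1)))).filter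
        (fun W : Finset (Fin (d + 1)) => ∀ i ∈ W, (i : ℕ) < r)).image (fun W => W.map Fin.valEmbedding),
        ∑ s ∈ range n, V n W (r - 1) s := by
    rw [Finset.sum_image]
    intro W _ W' _ h
    exact Finset.map_injective _ h
  rw [h2]
  apply Finset.sum_le_sum_of_subset
  intro W hW
  obtain ⟨W1, hW1, rfl⟩ := Finset.mem_image.mp hW
  obtain ⟨h3, h4⟩ := Finset.mem_filter.mp hW1
  rw [Finset.mem_powersetCard] at h3 ⊢
  refine ⟨?_, by rw [Finset.card_map]; exact h3.2⟩
  intro i hi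
  obtain ⟨j, hj, rfl⟩ := Finset.mem_map.mp hi
  exact Finset.mem_range.mpr (h4 j hj)

end

/-- averaging over all permutations -/
theorem sum_perm {α : Type*} [Fintype α] [DecidableEq α] (F : Finset α → ℕ) (S : Finset α) :
    (Fintype.card α).choose S.card * ∑ τ : Equiv.Perm α, F (S.map τ.symm.toEmbedding) =
      (Fintype.card α).factorial * ∑ W ∈ powersetCard S.card univ, F W := by
  have hinv : ∀ S' : Finset α, S'.card = S.card →
      ∑ τ : Equiv.Perm α, F (S'.map τ.symm.toEmbedding) =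
        ∑ τ : Equiv.Perm α, F (S.map τ.symm.toEmbedding) := by
    intro S' hS'
    let e : {x // x ∈ S} ≃ {x // x ∈ S'} := Fintype.equivOfCardEq (by simp [hS'])
    let ρ : Equiv.Perm α := e.extendSubtype
    have hρ : S.map ρ.toEmbedding = S' := by
      apply Finset.eq_of_subset_of_card_le
      · intro x hx
        obtain ⟨y, hy, rfl⟩ := Finset.mem_map.mp hx
        exact e.extendSubtype_mem y hy
      · rw [Finset.card_map, hS']
    rw [← hρ]
    rw [← Equiv.sum_comp (Equiv.mulLeft ρ)]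
    apply Finset.sum_congr rfl
    intro τ _
    congr 1
    rw [Finset.map_map]
    ext x
    have key : ∀ a, (ρ * τ).symm (ρ a) = τ.symm a := by
      intro a
      rw [Equiv.symm_apply_eq, Equiv.Perm.mul_apply, Equiv.apply_symm_apply]
    simp only [Finset.mem_map, Function.Embedding.trans_apply, Equiv.coe_toEmbedding,
      Equiv.coe_mulLeft, key]
  have h1 : ∑ S' ∈ powersetCard S.card (univ : Finset α),
      ∑ τ : Equiv.Perm α, F (S'.map τ.symm.toEmbedding) =
      (Fintype.card α).choose S.card * ∑ τ : Equiv.Perm α, F (S.map τ.symm.toEmbedding) := by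
    rw [Finset.sum_congr rfl (fun S' hS' => hinv S' (Finset.mem_powersetCard.mp hS').2),
      Finset.sum_const, Finset.card_powersetCard, Finset.card_univ, smul_eq_mul]
  rw [← h1, Finset.sum_comm]
  have h2 : ∀ τ : Equiv.Perm α, ∑ S' ∈ powersetCard S.card (univ : Finset α),
      F (S'.map τ.symm.toEmbedding) = ∑ W ∈ powersetCard S.card univ, F W := by
    intro τ
    refine Finset.sum_nbij' (fun S' => S'.map τ.symm.toEmbedding) (fun S' => S'.map τ.toEmbedding)
      ?_ ?_ ?_ ?_ ?_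
    · intro S' hS'
      rw [Finset.mem_powersetCard] at hS' ⊢
      exact ⟨Finset.subset_univ _, by rw [Finset.card_map]; exact hS'.2⟩
    · intro S' hS'
      rw [Finset.mem_powersetCard] at hS' ⊢
      exact ⟨Finset.subset_univ _, by rw [Finset.card_map]; exact hS'.2⟩
    · intro S' _
      rw [Finset.map_map]
      ext x
      simp
    · intro S' _
      rw [Finset.map_map]
      ext x
      simp
    · intro S' _
      rfl
  rw [Finset.sum_congr rfl (fun τ _ => h2 τ), Finset.sum_const, Finset.card_univ,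
    Fintype.card_perm, smul_eq_mul]

section

variable {R : Type*} [CommRing R] {k : Type*} [Field k] [Algebra k R] {d : ℕ}

/-- the bound for one ordering -/
theorem length_bound_perm {m : Ideal R} {l : Fin (d + 1) → R} (w : Fin (d + 1) → ℕ)
    (hw : ∀ i, 1 ≤ w i) {I : Ideal R} (N : ℕ) (hN : m ^ N ≤ I) {B : Finset (Fin (d + 1) → ℕ)}
    (hl : Coord k m l) (hB : ∀ τ : Equiv.Perm (Fin (d + 1)), Good k (l ∘ τ) w I B)
    (n r : ℕ) (hn : 0 < n) (hr : 1 ≤ r) (hrd : r ≤ d + 1) (τ : Equiv.Perm (Fin (d + 1))) :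
    Module.length R (R ⧸ (I ^ n ⊔ Ideal.span {f | ∃ i : Fin (d + 1), (i : ℕ) < d + 1 - r ∧ f = l i})) ≤
      ((∑ u ∈ B, FF n r ((su u).map τ.symm.toEmbedding) : ℕ) : ℕ∞) := by
  classical
  -- the coordinate system
  set σ : Equiv.Perm (Fin (d + 1)) := τ.symm.trans Fin.revPerm with hσ
  have h1 := length_bound ((hl.perm σ).perm τ) (w ∘ τ) (fun i => hw _) N hN ((hB σ).perm τ) n r hn hr
  have hσi : ∀ i, ((l ∘ σ) ∘ τ) i = l (Fin.rev i) := by
    intro i
    simp [hσ]
  have hset : {f | ∃ i : Fin (d + 1), r ≤ (i : ℕ) ∧ f = ((l ∘ σ) ∘ τ) i} =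
      {f | ∃ i : Fin (d + 1), (i : ℕ) < d + 1 - r ∧ f = l i} := by
    ext f
    simp only [hσi, Set.mem_ofPred_eq]
    constructor
    · rintro ⟨i, hi, rfl⟩
      refine ⟨Fin.rev i, ?_, rfl⟩
      rw [Fin.val_rev]
      have := i.2
      omega
    · rintro ⟨i, hi, rfl⟩
      refine ⟨Fin.rev i, ?_, by rw [Fin.rev_rev]⟩
      rw [Fin.val_rev]
      have := i.2
      omega
  rw [hset] at h1
  refine h1.trans ?_
  rw [Nat.cast_le, Finset.sum_image]
  · apply Finset.sum_le_sum
    intro u _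
    rw [FF_su, su_perm]
  · intro u _ u' _ h
    funext i
    have := congrFun h (τ.symm i)
    simpa using this

/-- the averaged bound -/
theorem length_bound_avg {m : Ideal R} {l : Fin (d + 1) → R} (w : Fin (d + 1) → ℕ)
    (hw : ∀ i, 1 ≤ w i) {I : Ideal R} (N : ℕ) (hN : m ^ N ≤ I) {B : Finset (Fin (d + 1) → ℕ)}
    (hl : Coord k m l) (hB : ∀ τ : Equiv.Perm (Fin (d + 1)), Good k (l ∘ τ) w I B)
    (n r : ℕ) (hn : 0 < n) (hr : 1 ≤ r) (hrd : r ≤ d + 1) :
    ((Module.length R (R ⧸ (I ^ n ⊔ Ideal.span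
      {f | ∃ i : Fin (d + 1), (i : ℕ) < d + 1 - r ∧ f = l i}))).toNat : ℝ) ≤
      ((n : ℝ) + r) ^ r * ∑ u ∈ B, eta r (su u).card / ((d + 1).choose (su u).card : ℝ) := by
  classical
  set len : ℕ := (Module.length R (R ⧸ (I ^ n ⊔ Ideal.span
      {f | ∃ i : Fin (d + 1), (i : ℕ) < d + 1 - r ∧ f = l i}))).toNat with hlen
  have h1 : ∀ τ : Equiv.Perm (Fin (d + 1)), len ≤ ∑ u ∈ B, FF n r ((su u).map τ.symm.toEmbedding) := by
    intro τ
    have h2 := length_bound_perm w hw N hN hl hB n r hn hr hrd τ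
    have h3 := ENat.toNat_le_toNat h2 (ENat.natCast_ne_top _)
    rwa [ENat.toNat_natCast] at h3
  have h2 : (d + 1).factorial * len ≤
      ∑ u ∈ B, ∑ τ : Equiv.Perm (Fin (d + 1)), FF n r ((su u).map τ.symm.toEmbedding) := by
    rw [Finset.sum_comm]
    calc (d + 1).factorial * len = ∑ _τ : Equiv.Perm (Fin (d + 1)), len := by
          rw [Finset.sum_const, Finset.card_univ, Fintype.card_perm, Fintype.card_fin, smul_eq_mul]
      _ ≤ _ := Finset.sum_le_sum fun τ _ => h1 τ
  have h3 : ∀ u : Fin (d + 1) → ℕ,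
      ((∑ τ : Equiv.Perm (Fin (d + 1)), FF n r ((su u).map τ.symm.toEmbedding) : ℕ) : ℝ) ≤
        ((d + 1).factorial : ℝ) * (((n : ℝ) + r) ^ r * (eta r (su u).card /
          ((d + 1).choose (su u).card : ℝ))) := by
    intro u
    have h4 := sum_perm (FF (d := d) n r) (su u)
    rw [Fintype.card_fin] at h4
    have h5 := sum_FF_le (d := d) n r (su u).card hr
    have hle : (su u).card ≤ d + 1 := by
      have := Finset.card_le_univ (su u)
      rwa [Fintype.card_fin] at this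
    have hpos : (0 : ℝ) < ((d + 1).choose (su u).card : ℝ) := by
      exact_mod_cast Nat.choose_pos hle
    have h6 : ((d + 1).choose (su u).card : ℝ) *
        ((∑ τ : Equiv.Perm (Fin (d + 1)), FF n r ((su u).map τ.symm.toEmbedding) : ℕ) : ℝ) =
        ((d + 1).factorial : ℝ) *
          ((∑ W ∈ powersetCard (su u).card (univ : Finset (Fin (d + 1))), FF n r W : ℕ) : ℝ) := by
      exact_mod_cast h4
    have h7 : ((∑ τ : Equiv.Perm (Fin (d + 1)), FF n r ((su u).map τ.symm.toEmbedding) : ℕ) : ℝ) =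
        ((d + 1).factorial : ℝ) *
          ((∑ W ∈ powersetCard (su u).card (univ : Finset (Fin (d + 1))), FF n r W : ℕ) : ℝ) /
            ((d + 1).choose (su u).card : ℝ) := by
      rw [eq_div_iff hpos.ne', ← h6]
      ring
    rw [h7, div_le_iff₀ hpos]
    calc _ ≤ ((d + 1).factorial : ℝ) * (((n : ℝ) + r) ^ r * eta r (su u).card) :=
          mul_le_mul_of_nonneg_left h5 (by positivity)
      _ = _ := by field_simp
  have h4 : ((d + 1).factorial : ℝ) * (len : ℝ) ≤ ((d + 1).factorial : ℝ) *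
      (((n : ℝ) + r) ^ r * ∑ u ∈ B, eta r (su u).card / ((d + 1).choose (su u).card : ℝ)) := by
    calc ((d + 1).factorial : ℝ) * (len : ℝ)
        ≤ ((∑ u ∈ B, ∑ τ : Equiv.Perm (Fin (d + 1)),
            FF n r ((su u).map τ.symm.toEmbedding) : ℕ) : ℝ) := by exact_mod_cast h2
      _ = ∑ u ∈ B, ((∑ τ : Equiv.Perm (Fin (d + 1)),
            FF n r ((su u).map τ.symm.toEmbedding) : ℕ) : ℝ) := by rw [Nat.cast_sum]
      _ ≤ ∑ u ∈ B, ((d + 1).factorial : ℝ) * (((n : ℝ) + r) ^ r * (eta r (su u).card /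
          ((d + 1).choose (su u).card : ℝ))) := Finset.sum_le_sum fun u _ => h3 u
      _ = _ := by rw [← Finset.mul_sum, ← Finset.mul_sum]
  exact le_of_mul_le_mul_left h4 (by positivity)

end

end Pool.Agent.U542.Lech
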