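import Pool.Agent.U542.Lech.Gin
import Pool.Agent.U542.Lech.Perm
import Pool.Agent.U542.Lech.PS

/-!
# The Stirling number refinement of Lech's inequality
-/

set_option autoImplicit false

namespace Pool.Agent.U542.Lech

open Finset Filter

section

variable {R : Type*} [CommRing R] {k : Type*} [Field k] [Algebra k R] {d : ℕ}

theorem tendsto_ratio (r : ℕ) :
    Tendsto (fun n : ℕ => ((n : ℝ) + r) ^ r / (n : ℝ) ^ r) atTop (nhds 1) := by
  have h1 : Tendsto (fun n : ℕ => (1 + (r : ℝ) / (n : ℝ)) ^ r) atTop (nhds ((1 + 0) ^ r)) :=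
    (tendsto_const_nhds.add (tendsto_const_div_atTop_nhds_zero_nat (r : ℝ))).pow r
  rw [add_zero, one_pow] at h1
  refine h1.congr' ?_
  rw [Filter.EventuallyEq, Filter.eventually_atTop]
  refine ⟨1, fun n hn => ?_⟩
  have hn' : (n : ℝ) ≠ 0 := by
    have : 0 < n := hn
    positivity
  rw [← div_pow, add_div, div_self hn']

/-- the bound on the multiplicities -/
theorem mult_le {m : Ideal R} {l : Fin (d + 1) → R} (w : Fin (d + 1) → ℕ)
    (hw : ∀ i, 1 ≤ w i) {I : Ideal R} (N : ℕ) (hN : m ^ N ≤ I) {B : Finset (Fin (d + 1) → ℕ)}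
    (hl : Coord k m l) (hB : ∀ τ : Equiv.Perm (Fin (d + 1)), Good k (l ∘ τ) w I B)
    (r : ℕ) (hr : 1 ≤ r) (hrd : r ≤ d + 1) (e : ℝ)
    (he : Tendsto (fun n : ℕ => ((r.factorial : ℝ) *
      ((Module.length R (R ⧸ (I ^ n ⊔ Ideal.span
        {f | ∃ i : Fin (d + 1), (i : ℕ) < d + 1 - r ∧ f = l i}))).toNat : ℝ)) / (n : ℝ) ^ r)
      atTop (nhds e)) :
    e ≤ (r.factorial : ℝ) * ∑ u ∈ B, eta r (su u).card / ((d + 1).choose (su u).card : ℝ) := by
  set S : ℝ := ∑ u ∈ B, eta r (su u).card / ((d + 1).choose (su u).card : ℝ) with hS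
  have h1 : Tendsto (fun n : ℕ => ((r.factorial : ℝ) * S) * (((n : ℝ) + r) ^ r / (n : ℝ) ^ r)) atTop
      (nhds (((r.factorial : ℝ) * S) * 1)) := (tendsto_ratio r).const_mul _
  rw [mul_one] at h1
  refine le_of_tendsto_of_tendsto he h1 ?_
  rw [Filter.EventuallyLE, Filter.eventually_atTop]
  refine ⟨1, fun n hn => ?_⟩
  have h2 := length_bound_avg w hw N hN hl hB n r hn hr hrd
  have hn' : (0 : ℝ) < (n : ℝ) ^ r := by
    have : 0 < n := hn
    positivity
  rw [div_le_iff₀ hn']
  have h3 : ((r.factorial : ℝ) * S) * (((n : ℝ) + r) ^ r / (n : ℝ) ^ r) * (n : ℝ) ^ r =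
      (r.factorial : ℝ) * (((n : ℝ) + r) ^ r * S) := by
    field_simp
  rw [h3]
  exact mul_le_mul_of_nonneg_left h2 (by positivity)

end

theorem final_sum {d : ℕ} (B : Finset (Fin (d + 1) → ℕ)) (e : Fin d → ℝ)
    (he : ∀ i : Fin d, e i ≤ ((d + 1 - i.val).factorial : ℝ) *
      ∑ u ∈ B, eta (d + 1 - i.val) (su u).card / ((d + 1).choose (su u).card : ℝ)) :
    ∑ i : Fin d, ((ascPochhammer ℕ (d + 1)).coeff (d + 1 - i.val) : ℝ) * e i ≤
      ((d + 1).factorial : ℝ) * (B.card : ℝ) := by
  classical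
  set g : ℕ → ℝ := fun r => ((ascPochhammer ℕ (d + 1)).coeff r : ℝ) * ((r.factorial : ℝ) *
    ∑ u ∈ B, eta r (su u).card / ((d + 1).choose (su u).card : ℝ)) with hg
  have hg0 : ∀ r, 0 ≤ g r := by
    intro r
    apply mul_nonneg (by positivity)
    apply mul_nonneg (by positivity)
    apply Finset.sum_nonneg
    intro u _
    exact div_nonneg (eta_nonneg _ _) (by positivity)
  have h1 : ∑ i : Fin d, ((ascPochhammer ℕ (d + 1)).coeff (d + 1 - i.val) : ℝ) * e i ≤
      ∑ i : Fin d, g (d + 1 - i.val) := by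
    apply Finset.sum_le_sum
    intro i _
    exact mul_le_mul_of_nonneg_left (he i) (by positivity)
  have h2 : ∑ i : Fin d, g (d + 1 - i.val) =
      ∑ r ∈ (univ : Finset (Fin d)).image (fun i => d + 1 - i.val), g r := by
    rw [Finset.sum_image]
    intro i _ j _ hij
    have := i.2
    have := j.2
    apply Fin.ext
    simp only at hij
    omega
  have h3 : ∑ r ∈ (univ : Finset (Fin d)).image (fun i => d + 1 - i.val), g r ≤
      ∑ r ∈ range (d + 1 + 1), g r := by
    apply Finset.sum_le_sum_of_subset_of_nonneg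
    · intro r hr
      obtain ⟨i, _, rfl⟩ := Finset.mem_image.mp hr
      rw [Finset.mem_range]
      omega
    · intro r _ _
      exact hg0 r
  have h4 : ∑ r ∈ range (d + 1 + 1), g r =
      ∑ u ∈ B, Z (d + 1) (su u).card / ((d + 1).choose (su u).card : ℝ) := by
    simp only [hg, Z, Finset.mul_sum, Finset.sum_div]
    rw [Finset.sum_comm]
    apply Finset.sum_congr rfl
    intro u _
    apply Finset.sum_congr rfl
    intro r _
    ring
  have h5 : ∑ u ∈ B, Z (d + 1) (su u).card / ((d + 1).choose (su u).card : ℝ) =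
      ((d + 1).factorial : ℝ) * (B.card : ℝ) := by
    have h6 : ∀ u ∈ B, Z (d + 1) (su u).card / ((d + 1).choose (su u).card : ℝ) =
        ((d + 1).factorial : ℝ) := by
      intro u _
      have hle : (su u).card ≤ d + 1 := by
        have := Finset.card_le_univ (su u)
        rwa [Fintype.card_fin] at this
      have hpos : (0 : ℝ) < ((d + 1).choose (su u).card : ℝ) := by
        exact_mod_cast Nat.choose_pos hle
      rw [Z_eq, mul_div_assoc, div_self hpos.ne', mul_one]
    rw [Finset.sum_congr rfl h6, Finset.sum_const, nsmul_eq_mul, mul_comm]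
  linarith

open MvPowerSeries in
theorem main (k : Type) [Field k] [Infinite k] (d : ℕ) (I : Ideal (MvPowerSeries (Fin (d+1)) k))
    (hI : I.radical = Ideal.span (Set.range (MvPowerSeries.X : Fin (d+1) → MvPowerSeries (Fin (d+1)) k))) :
    ∃ P : MvPolynomial (Fin d × Fin (d+1)) k, P ≠ 0 ∧
      ∀ c : Fin d → Fin (d+1) → k, MvPolynomial.eval (fun p => c p.1 p.2) P ≠ 0 →
        ∀ e : Fin d → ℝ,
          (∀ i : Fin d, Filter.Tendsto
            (fun n : ℕ => ((Nat.factorial (d+1-i.val) : ℝ) *
              ((Module.length (MvPowerSeries (Fin (d+1)) k)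
                (MvPowerSeries (Fin (d+1)) k ⧸
                  (I ^ n ⊔ Ideal.span {f : MvPowerSeries (Fin (d+1)) k |
                    ∃ j : Fin d, j.val < i.val ∧
                      f = ∑ t : Fin (d+1), c j t • (MvPowerSeries.X t : MvPowerSeries (Fin (d+1)) k)}))).toNat : ℝ))
              / (n : ℝ) ^ (d+1-i.val))
            Filter.atTop (nhds (e i))) →
          ∑ i : Fin d, ((ascPochhammer ℕ (d+1)).coeff (d+1-i.val) : ℝ) * e i
            ≤ (Nat.factorial (d+1) : ℝ) *
              ((Module.length (MvPowerSeries (Fin (d+1)) k)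
                (MvPowerSeries (Fin (d+1)) k ⧸ I)).toNat : ℝ) := by
  classical
  set m : Ideal (MvPowerSeries (Fin (d+1)) k) :=
    Ideal.span (Set.range (MvPowerSeries.X : Fin (d+1) → MvPowerSeries (Fin (d+1)) k)) with hm
  have hx : Coord k m (MvPowerSeries.X : Fin (d+1) → MvPowerSeries (Fin (d+1)) k) :=
    ⟨rfl, const_sub_mem⟩
  obtain ⟨N0, hN0⟩ := Ideal.exists_pow_le_of_le_radical_of_fg (le_of_eq hI.symm)
    (Submodule.fg_span (Set.finite_range _))
  have hN : m ^ (N0 + 1) ≤ I := (Ideal.pow_le_pow_right (Nat.le_succ N0)).trans hN0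
  obtain ⟨w, B, Q, hw, hBcard, hQ, hgood⟩ := gin hx (N0 + 1) (Nat.le_add_left 1 N0) hN
  -- the product polynomial
  set Q' : MvPolynomial (Fin (d + 1) × Fin (d + 1)) k :=
    (∏ τ : Equiv.Perm (Fin (d + 1)), MvPolynomial.rename (fun p => (τ p.1, p.2)) Q) *
      Matrix.det (Matrix.mvPolynomialX (Fin (d + 1)) (Fin (d + 1)) k) with hQ'
  have hQ'0 : Q' ≠ 0 := by
    apply mul_ne_zero
    · rw [Finset.prod_ne_zero_iff]
      intro τ _
      intro h0
      apply hQ
      have hinj : Function.Injective fun p : Fin (d + 1) × Fin (d + 1) => (τ p.1, p.2) := by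
        rintro ⟨a, b⟩ ⟨a', b'⟩ h
        simp only [Prod.mk.injEq] at h
        rw [τ.injective h.1, h.2]
      exact MvPolynomial.rename_injective _ hinj (by rw [h0, map_zero])
    · exact Matrix.det_mvPolynomialX_ne_zero _ _
  have hev : ∀ A : Fin (d + 1) → Fin (d + 1) → k,
      MvPolynomial.eval (fun p => A p.1 p.2) Q' ≠ 0 →
        (∀ τ : Equiv.Perm (Fin (d + 1)), MvPolynomial.eval (fun p => (A ∘ τ) p.1 p.2) Q ≠ 0) ∧
          Matrix.det (Matrix.of A) ≠ 0 := by
    intro A hA
    rw [hQ', map_mul] at hA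
    refine ⟨fun τ => ?_, ?_⟩
    · have h1 := left_ne_zero_of_mul hA
      rw [map_prod, Finset.prod_ne_zero_iff] at h1
      have h2 := h1 τ (Finset.mem_univ τ)
      rw [MvPolynomial.eval_rename] at h2
      exact h2
    · have h1 := right_ne_zero_of_mul hA
      rw [RingHom.map_det] at h1
      have h2 := Matrix.mvPolynomialX_mapMatrix_eval (Matrix.of A)
      simp only [Matrix.of_apply] at h2
      rw [h2] at h1
      exact h1
  obtain ⟨c0, hc0⟩ : ∃ c0 : Fin (d + 1) × Fin (d + 1) → k, MvPolynomial.eval c0 Q' ≠ 0 := by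
    by_contra h
    push Not at h
    exact hQ'0 (MvPolynomial.funext fun c => by rw [h c, map_zero])
  let cc : (Fin d → Fin (d + 1) → k) → Fin (d + 1) → Fin (d + 1) → k := fun c i t =>
    if h : (i : ℕ) < d then c ⟨i, h⟩ t else c0 (i, t)
  let P : MvPolynomial (Fin d × Fin (d + 1)) k := MvPolynomial.aeval
    (fun p : Fin (d + 1) × Fin (d + 1) => if h : (p.1 : ℕ) < d then
      (MvPolynomial.X (⟨p.1, h⟩, p.2) : MvPolynomial (Fin d × Fin (d + 1)) k)
      else MvPolynomial.C (c0 (p.1, p.2))) Q'
  have hP : ∀ c : Fin d → Fin (d + 1) → k, MvPolynomial.eval (fun p => c p.1 p.2) P =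
      MvPolynomial.eval (fun p => cc c p.1 p.2) Q' := by
    intro c
    simp only [P]
    rw [MvPolynomial.map_aeval]
    have h1 : (MvPolynomial.eval fun p : Fin d × Fin (d + 1) => c p.1 p.2).comp
        (algebraMap k (MvPolynomial (Fin d × Fin (d + 1)) k)) = RingHom.id k := by
      ext a
      simp [MvPolynomial.algebraMap_eq]
    rw [h1]
    have h2 : (fun i : Fin (d + 1) × Fin (d + 1) =>
        (MvPolynomial.eval fun p : Fin d × Fin (d + 1) => c p.1 p.2)
          (if h : (i.1 : ℕ) < d then (MvPolynomial.X (⟨i.1, h⟩, i.2) :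
            MvPolynomial (Fin d × Fin (d + 1)) k) else MvPolynomial.C (c0 (i.1, i.2)))) =
        fun p => cc c p.1 p.2 := by
      funext i
      simp only [cc]
      split_ifs with h
      · rw [MvPolynomial.eval_X]
      · rw [MvPolynomial.eval_C]
    rw [h2]
    rfl
  refine ⟨P, ?_, ?_⟩
  · intro h0
    have h1 := hP fun j t => c0 (j.castSucc, t)
    rw [h0, map_zero] at h1
    apply hc0
    rw [h1]
    congr 1
    congr 1
    funext p
    simp only [cc]
    split_ifs with h
    · rfl
    · rfl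
  · intro c hc e he
    rw [hP] at hc
    obtain ⟨hQτ, hdet⟩ := hev _ hc
    set A : Fin (d + 1) → Fin (d + 1) → k := cc c with hA
    set l : Fin (d + 1) → MvPowerSeries (Fin (d+1)) k := lin MvPowerSeries.X A with hl
    have hB : ∀ τ : Equiv.Perm (Fin (d + 1)), Good k (l ∘ τ) w I B := fun τ => hgood (A ∘ τ) (hQτ τ)
    have hlc : Coord k m l := by
      refine ⟨le_antisymm ?_ ?_, const_sub_mem⟩
      · rw [hm, Ideal.span_le]
        rintro _ ⟨t, rfl⟩
        have h1 : (MvPowerSeries.X t : MvPowerSeries (Fin (d+1)) k) =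
            ∑ i, ((Matrix.of A)⁻¹ t i) • l i := by
          have h2 : (Matrix.of A)⁻¹ * Matrix.of A = 1 :=
            Matrix.nonsing_inv_mul _ (isUnit_iff_ne_zero.mpr hdet)
          simp only [hl, lin, Finset.smul_sum, smul_smul]
          rw [Finset.sum_comm]
          simp only [← Finset.sum_smul]
          have h3 : ∀ s, ∑ i, (Matrix.of A)⁻¹ t i * A i s = if t = s then 1 else 0 := by
            intro s
            have h4 := congrFun (congrFun h2 t) s
            rw [Matrix.mul_apply, Matrix.one_apply] at h4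
            exact h4
          simp only [h3]
          simp
        rw [SetLike.mem_coe, h1]
        apply Ideal.sum_mem
        intro i _
        rw [Algebra.smul_def]
        exact Ideal.mul_mem_left _ _ (Ideal.subset_span (Set.mem_range_self i))
      · rw [Ideal.span_le]
        rintro _ ⟨i, rfl⟩
        exact lin_mem hx.mem A i
    have hle : ∀ i : Fin d, e i ≤ ((d + 1 - i.val).factorial : ℝ) *
        ∑ u ∈ B, eta (d + 1 - i.val) (su u).card / ((d + 1).choose (su u).card : ℝ) := by
      intro i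
      have hi := i.2
      apply mult_le w hw (N0 + 1) hN hlc hB (d + 1 - i.val) (by omega) (by omega)
      have hset : {f : MvPowerSeries (Fin (d+1)) k | ∃ j : Fin d, j.val < i.val ∧
          f = ∑ t : Fin (d+1), c j t • (MvPowerSeries.X t : MvPowerSeries (Fin (d+1)) k)} =
          {f | ∃ j : Fin (d + 1), (j : ℕ) < d + 1 - (d + 1 - i.val) ∧ f = l j} := by
        ext f
        simp only [Set.mem_ofPred_eq]
        constructor
        · rintro ⟨j, hj, rfl⟩
          refine ⟨j.castSucc, ?_, ?_⟩
          · rw [Fin.val_castSucc]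
            omega
          · have h1 : A j.castSucc = c j := by
              funext t
              simp only [hA, cc, Fin.val_castSucc, Fin.eta, dif_pos j.2]
            rw [hl, lin, h1]
        · rintro ⟨j, hj, rfl⟩
          have hj' : (j : ℕ) < d := by omega
          refine ⟨⟨j, hj'⟩, by simp only; omega, ?_⟩
          have h1 : A j = c ⟨j, hj'⟩ := by
            funext t
            simp only [hA, cc, dif_pos hj']
          rw [hl, lin, h1]
      have := he i
      rw [hset] at this
      exact this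
    refine (final_sum B e hle).trans ?_
    have hfin : Module.Finite k (MvPowerSeries (Fin (d+1)) k ⧸ I) := finite_quot hx (N0 + 1) hN
    have hlen : IsFiniteLength (MvPowerSeries (Fin (d+1)) k) (MvPowerSeries (Fin (d+1)) k ⧸ I) := by
      rw [isFiniteLength_iff_isNoetherian_isArtinian]
      exact ⟨isNoetherian_of_tower k inferInstance, isArtinian_of_tower k inferInstance⟩
    obtain ⟨n1, hn1, hn2⟩ := finrank_le_length (k := k) hlen
    have h5 : B.card ≤ (Module.length (MvPowerSeries (Fin (d+1)) k)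
        (MvPowerSeries (Fin (d+1)) k ⧸ I)).toNat := by
      rw [hn1, ENat.toNat_natCast]
      exact hBcard.trans hn2
    apply mul_le_mul_of_nonneg_left _ (by positivity)
    exact_mod_cast h5

end Pool.Agent.U542.Lech
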