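import Pool.Agent.U542.Lech.Split

/-!
# The length bound for one coordinate system
-/

set_option autoImplicit false

namespace Pool.Agent.U542.Lech

open Finset

section

variable {R : Type*} [CommRing R] {d : ℕ}

/-- monomials in the elements `y` -/
def mon (y : Fin (d + 1) → R) (u : Fin (d + 1) → ℕ) : R := ∏ i, y i ^ u i

/-- weights -/
def wt (w u : Fin (d + 1) → ℕ) : ℕ := ∑ i, u i * w i

theorem mon_add (y : Fin (d + 1) → R) (u v : Fin (d + 1) → ℕ) :
    mon y (u + v) = mon y u * mon y v := by
  simp only [mon, Pi.add_apply, pow_add, Finset.prod_mul_distrib]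

theorem mon_zero (y : Fin (d + 1) → R) : mon y 0 = 1 := by simp [mon]

theorem mon_single (y : Fin (d + 1) → R) (i : Fin (d + 1)) : mon y (Pi.single i 1) = y i := by
  rw [mon, Finset.prod_eq_single i]
  · simp
  · intro j _ hj
    rw [Pi.single_eq_of_ne hj, pow_zero]
  · intro h; exact absurd (Finset.mem_univ i) h

theorem wt_add (w u v : Fin (d + 1) → ℕ) : wt w (u + v) = wt w u + wt w v := by
  simp only [wt, Pi.add_apply, add_mul, Finset.sum_add_distrib]

variable (k : Type*) [Field k] [Algebra k R]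

/-- the span of the monomials of weight at least `a` -/
def U (y : Fin (d + 1) → R) (w : Fin (d + 1) → ℕ) (a : ℕ) : Submodule k R :=
  Submodule.span k {x | ∃ v, a ≤ wt w v ∧ mon y v = x}

variable {k}

theorem mon_mem_U {y : Fin (d + 1) → R} {w : Fin (d + 1) → ℕ} {a : ℕ} {v : Fin (d + 1) → ℕ}
    (h : a ≤ wt w v) : mon y v ∈ U k y w a := Submodule.subset_span ⟨v, h, rfl⟩

theorem U_anti {y : Fin (d + 1) → R} {w : Fin (d + 1) → ℕ} {a b : ℕ} (h : a ≤ b) :
    U k y w b ≤ U k y w a := by
  apply Submodule.span_mono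
  rintro x ⟨v, hv, rfl⟩
  exact ⟨v, h.trans hv, rfl⟩

theorem U_mul {y : Fin (d + 1) → R} {w : Fin (d + 1) → ℕ} {a b : ℕ} {x x' : R}
    (hx : x ∈ U k y w a) (hx' : x' ∈ U k y w b) : x * x' ∈ U k y w (a + b) := by
  have h := Submodule.mul_mem_mul hx hx'
  rw [U, U, Submodule.span_mul_span] at h
  refine Submodule.span_mono ?_ h
  rintro _ ⟨_, ⟨v, hv, rfl⟩, _, ⟨v', hv', rfl⟩, rfl⟩
  exact ⟨v + v', by rw [wt_add]; exact Nat.add_le_add hv hv', mon_add y v v'⟩

variable (k) in
/-- every monomial outside of `B` is congruent modulo `I` to monomials of larger weight -/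
def Good (y : Fin (d + 1) → R) (w : Fin (d + 1) → ℕ) (I : Ideal R)
    (B : Finset (Fin (d + 1) → ℕ)) : Prop :=
  ∀ u, u ∉ B → ∃ F ∈ I, mon y u - F ∈ U k y w (wt w u + 1)

theorem good_prod {y : Fin (d + 1) → R} {w : Fin (d + 1) → ℕ} {I : Ideal R}
    {B : Finset (Fin (d + 1) → ℕ)} (hB : Good k y w I B) {ι : Type*} (s : Finset ι)
    (v : ι → (Fin (d + 1) → ℕ)) (h : ∀ i ∈ s, v i ∉ B) :
    ∃ F ∈ I ^ s.card, mon y (∑ i ∈ s, v i) - F ∈ U k y w (wt w (∑ i ∈ s, v i) + 1) := by
  classical
  induction s using Finset.induction_on with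
  | empty =>
    refine ⟨1, ?_, ?_⟩
    · rw [Finset.card_empty, pow_zero, Ideal.one_eq_top]; trivial
    · rw [Finset.sum_empty, mon_zero, sub_self]; exact Submodule.zero_mem _
  | insert i s hi ih =>
    obtain ⟨F, hF, hFU⟩ := ih fun j hj => h j (Finset.mem_insert_of_mem hj)
    obtain ⟨F1, hF1, hF1U⟩ := hB (v i) (h i (Finset.mem_insert_self i s))
    refine ⟨F1 * F, ?_, ?_⟩
    · rw [Finset.card_insert_of_notMem hi, pow_succ']
      exact Ideal.mul_mem_mul hF1 hF
    · rw [Finset.sum_insert hi, mon_add, wt_add]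
      set M := mon y (∑ j ∈ s, v j)
      have h1 : mon y (v i) * M - F1 * F = mon y (v i) * (M - F) + (mon y (v i) - F1) * F := by ring
      rw [h1]
      have hFm : F ∈ U k y w (wt w (∑ j ∈ s, v j)) := by
        have h2 : F = M - (M - F) := by ring
        rw [h2]
        exact Submodule.sub_mem _ (mon_mem_U le_rfl) (U_anti (Nat.le_succ _) hFU)
      apply Submodule.add_mem
      · have h3 := U_mul (mon_mem_U (k := k) (y := y) (w := w) (v := v i) le_rfl) hFU
        rwa [← add_assoc] at h3
      · have h4 := U_mul hF1U hFm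
        refine U_anti ?_ h4
        omega

theorem sp_congr (n s : ℕ) {u u' : Fin (d + 1) → ℕ} (h : ∀ i, i ≠ 0 → u i = u' i) :
    sp n s u = sp n s u' := by
  have ht : ∀ j, 1 ≤ j → tl u j = tl u' j := by
    intro j hj
    apply Finset.sum_congr rfl
    intro i _
    split_ifs with hi
    · apply h
      intro h0
      rw [h0] at hi
      simp at hi
      omega
    · rfl
  funext i
  by_cases hi : i = 0
  · rw [hi, sp_zero, sp_zero]
  · have hi1 : 1 ≤ (i : ℕ) := by
      by_contra h
      exact hi (Fin.ext (by rw [Fin.val_zero]; omega))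
    rw [sp_ne n s u hi, sp_ne n s u' hi, ht _ hi1, ht _ (by omega)]

theorem good_reduce {y : Fin (d + 1) → R} {w : Fin (d + 1) → ℕ} {I : Ideal R}
    {B : Finset (Fin (d + 1) → ℕ)} (hB : Good k y w I B) (n : ℕ) (hn : 0 < n)
    (u : Fin (d + 1) → ℕ) (hu : ∑ s ∈ range n, gB B (sp n s u) ≤ u 0) :
    ∃ F ∈ I ^ n, mon y u - F ∈ U k y w (wt w u + 1) := by
  obtain ⟨F, hF, hFU⟩ := good_prod hB (range n)
    (fun s => Function.update (sp n s u) 0 (gB B (sp n s u))) (fun s _ => gB_notMem B (sp n s u))
  set v : Fin (d + 1) → ℕ := ∑ s ∈ range n, Function.update (sp n s u) 0 (gB B (sp n s u)) with hv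
  set e : Fin (d + 1) → ℕ := Pi.single 0 (u 0 - ∑ s ∈ range n, gB B (sp n s u)) with he
  have hu' : u = e + v := by
    funext i
    rw [Pi.add_apply, hv, Finset.sum_apply, he]
    by_cases hi : i = 0
    · subst hi
      simp only [Function.update_self, Pi.single_eq_same]
      omega
    · rw [Pi.single_eq_of_ne hi, zero_add]
      simp only [Function.update_of_ne hi]
      exact (sum_sp n hn u hi).symm
  rw [Finset.card_range] at hF
  refine ⟨mon y e * F, Ideal.mul_mem_left _ _ hF, ?_⟩
  rw [hu', mon_add, ← mul_sub, wt_add, add_assoc]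
  exact U_mul (mon_mem_U le_rfl) hFU

theorem span_lemma {y : Fin (d + 1) → R} {w : Fin (d + 1) → ℕ} (K : Ideal R) (C : ℕ)
    (hC : U k y w C ≤ K.restrictScalars k) (S : Finset (Fin (d + 1) → ℕ))
    (hS : ∀ u, u ∉ S → ∃ F ∈ K, mon y u - F ∈ U k y w (wt w u + 1)) (m : ℕ) :
    ∀ a, C ≤ a + m → U k y w a ≤ Submodule.span k (mon y '' (S : Set (Fin (d + 1) → ℕ))) ⊔
      K.restrictScalars k := by
  induction m with
  | zero =>
    intro a ha
    exact (U_anti ha).trans (hC.trans le_sup_right)
  | succ m ih =>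
    intro a ha
    rw [U, Submodule.span_le]
    rintro x ⟨v, hv, rfl⟩
    by_cases hvS : v ∈ S
    · exact Submodule.mem_sup_left (Submodule.subset_span ⟨v, hvS, rfl⟩)
    · obtain ⟨F, hF, hFU⟩ := hS v hvS
      have h1 : mon y v = (mon y v - F) + F := by ring
      rw [SetLike.mem_coe, h1]
      exact Submodule.add_mem _ (ih _ (by omega) hFU) (Submodule.mem_sup_right hF)

theorem length_le_card {y : Fin (d + 1) → R} (K : Ideal R) (S : Finset (Fin (d + 1) → ℕ))
    (h : (⊤ : Submodule k R) ≤ Submodule.span k (mon y '' (S : Set (Fin (d + 1) → ℕ))) ⊔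
      K.restrictScalars k) : Module.length R (R ⧸ K) ≤ (S.card : ℕ∞) := by
  classical
  have h1 : Module.length R (R ⧸ K) ≤ Module.length k (R ⧸ K) := by
    rw [← WithBot.coe_le_coe, Module.coe_length, Module.coe_length]
    exact Order.krullDim_le_of_orderEmbedding (Submodule.restrictScalarsEmbedding k R (R ⧸ K))
  let T : Finset (R ⧸ K) := S.image fun u => Ideal.Quotient.mk K (mon y u)
  have hT : Submodule.span k (T : Set (R ⧸ K)) = ⊤ := by
    rw [eq_top_iff]
    rintro x -
    obtain ⟨r, rfl⟩ := Ideal.Quotient.mk_surjective x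
    obtain ⟨a, ha, b, hb, rfl⟩ := Submodule.mem_sup.mp (h (Submodule.mem_top (x := r)))
    have hb' : Ideal.Quotient.mk K b = 0 := Ideal.Quotient.eq_zero_iff_mem.mpr hb
    rw [map_add, hb', add_zero]
    have h2 := Submodule.mem_map_of_mem (f := (Ideal.Quotient.mkₐ k K).toLinearMap) ha
    rw [Submodule.map_span] at h2
    refine Submodule.span_mono ?_ h2
    rintro _ ⟨_, ⟨u, hu, rfl⟩, rfl⟩
    exact Finset.mem_coe.mpr (Finset.mem_image_of_mem _ hu)
  have hfin : Module.Finite k (R ⧸ K) := ⟨⟨T, hT⟩⟩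
  refine h1.trans ?_
  rw [Module.length_eq_finrank]
  have h3 : Module.finrank k (R ⧸ K) ≤ T.card := by
    have h4 := finrank_span_finset_le_card (R := k) T
    rw [Set.finrank, hT, finrank_top] at h4
    exact h4
  exact_mod_cast h3.trans Finset.card_image_le

/-- hypotheses on the elements `y` -/
structure Coord (k : Type*) {R : Type*} [Field k] [CommRing R] [Algebra k R] {d : ℕ} (m : Ideal R)
    (y : Fin (d + 1) → R) : Prop where
  span : m = Ideal.span (Set.range y)
  const : ∀ f : R, ∃ c : k, f - algebraMap k R c ∈ m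

theorem Coord.mem {m : Ideal R} {y : Fin (d + 1) → R} (h : Coord k m y) (i : Fin (d + 1)) :
    y i ∈ m := by
  rw [h.span]
  exact Ideal.subset_span (Set.mem_range_self i)

theorem Coord.pow_le {m : Ideal R} {y : Fin (d + 1) → R} (h : Coord k m y)
    (w : Fin (d + 1) → ℕ) (M : ℕ) :
    (m ^ M).restrictScalars k ≤ U k y w 0 ⊔ (m ^ (M + 1)).restrictScalars k := by
  induction M with
  | zero =>
    rintro f -
    obtain ⟨c, hc⟩ := h.const f
    have h1 : f = algebraMap k R c + (f - algebraMap k R c) := by ring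
    rw [h1]
    apply Submodule.add_mem
    · apply Submodule.mem_sup_left
      rw [Algebra.algebraMap_eq_smul_one, ← mon_zero y]
      exact Submodule.smul_mem _ _ (mon_mem_U (Nat.zero_le _))
    · apply Submodule.mem_sup_right
      rw [zero_add, pow_one]
      exact hc
  | succ M ih =>
    intro f hf
    rw [Submodule.restrictScalars_mem, pow_succ'] at hf
    refine Submodule.mul_induction_on hf ?_ ?_
    · intro x hx z hz
      rw [h.span] at hx
      revert z
      refine Submodule.span_induction ?_ ?_ ?_ ?_ hx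
      · rintro _ ⟨i, rfl⟩ z hz
        obtain ⟨a, ha, b, hb, rfl⟩ := Submodule.mem_sup.mp (ih hz)
        rw [mul_add]
        apply Submodule.add_mem
        · apply Submodule.mem_sup_left
          have h1 := U_mul (mon_mem_U (k := k) (y := y) (w := w) (v := Pi.single i 1)
            (Nat.zero_le _)) ha
          rw [mon_single] at h1
          exact h1
        · apply Submodule.mem_sup_right
          rw [Submodule.restrictScalars_mem, pow_succ' m (M + 1)]
          exact Ideal.mul_mem_mul (h.mem i) hb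
      · intro z _
        rw [zero_mul]
        exact Submodule.zero_mem _
      · intro x x' _ _ h1 h2 z hz
        rw [add_mul]
        exact Submodule.add_mem _ (h1 z hz) (h2 z hz)
      · intro r x _ h1 z hz
        rw [smul_eq_mul, mul_comm r x, mul_assoc]
        exact h1 _ (Ideal.mul_mem_left _ _ hz)
    · intro x x' h1 h2
      exact Submodule.add_mem _ h1 h2

theorem Coord.top_le {m : Ideal R} {y : Fin (d + 1) → R} (h : Coord k m y)
    (w : Fin (d + 1) → ℕ) (M : ℕ) :
    (⊤ : Submodule k R) ≤ U k y w 0 ⊔ (m ^ M).restrictScalars k := by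
  induction M with
  | zero =>
    rintro f -
    apply Submodule.mem_sup_right
    rw [Submodule.restrictScalars_mem, pow_zero, Ideal.one_eq_top]
    trivial
  | succ M ih =>
    exact ih.trans (sup_le le_sup_left (h.pow_le w M))

theorem Coord.mon_mem {m : Ideal R} {y : Fin (d + 1) → R} (h : Coord k m y)
    (u : Fin (d + 1) → ℕ) : mon y u ∈ m ^ (∑ i, u i) := by
  rw [mon, ← Finset.prod_pow_eq_pow_sum]
  exact Ideal.prod_mem_prod fun i _ => Ideal.pow_mem_pow (h.mem i) _

theorem length_bound {m : Ideal R} {y : Fin (d + 1) → R} (h : Coord k m y)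
    (w : Fin (d + 1) → ℕ) (hw : ∀ i, 1 ≤ w i) {I : Ideal R} (N : ℕ) (hN : m ^ N ≤ I)
    {B : Finset (Fin (d + 1) → ℕ)} (hB : Good k y w I B) (n r : ℕ) (hn : 0 < n) (hr : 1 ≤ r) :
    Module.length R (R ⧸ (I ^ n ⊔ Ideal.span {f | ∃ i : Fin (d + 1), r ≤ (i : ℕ) ∧ f = y i})) ≤
      ((∑ u ∈ B, if (∀ i : Fin (d + 1), r ≤ (i : ℕ) → u i = 0) then
        ∑ s ∈ range n, V n (suppN u) (r - 1) s else 0 : ℕ) : ℕ∞) := by
  classical
  set K : Ideal R := I ^ n ⊔ Ideal.span {f | ∃ i : Fin (d + 1), r ≤ (i : ℕ) ∧ f = y i} with hK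
  set W : ℕ := ∑ i, w i with hW
  set C : ℕ := W * (n * N) with hC
  have hwt : ∀ v : Fin (d + 1) → ℕ, wt w v ≤ W * ∑ i, v i := by
    intro v
    rw [wt, Finset.mul_sum]
    apply Finset.sum_le_sum
    intro i _
    rw [mul_comm]
    exact Nat.mul_le_mul_right _ (Finset.single_le_sum (fun _ _ => Nat.zero_le _) (Finset.mem_univ i))
  have hWpos : 0 < W := lt_of_lt_of_le (hw 0)
    (Finset.single_le_sum (f := w) (fun _ _ => Nat.zero_le _) (Finset.mem_univ 0))
  have hmon : ∀ v : Fin (d + 1) → ℕ, C ≤ wt w v → mon y v ∈ K := by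
    intro v hv
    have h1 : n * N ≤ ∑ i, v i := by
      have h2 := hv.trans (hwt v)
      exact Nat.le_of_mul_le_mul_left h2 hWpos
    have h2 : mon y v ∈ m ^ (n * N) := Ideal.pow_le_pow_right h1 (h.mon_mem v)
    rw [mul_comm, pow_mul] at h2
    exact Ideal.mem_sup_left (Ideal.pow_right_mono hN n h2)
  have hUC : U k y w C ≤ K.restrictScalars k := by
    rw [U, Submodule.span_le]
    rintro _ ⟨v, hv, rfl⟩
    exact hmon v hv
  set S : Finset (Fin (d + 1) → ℕ) := (Fintype.piFinset fun _ => range C).filter fun u =>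
    (∀ i : Fin (d + 1), r ≤ (i : ℕ) → u i = 0) ∧ u 0 < ∑ s ∈ range n, gB B (sp n s u) with hS
  set Bx : Finset (Fin (d + 1) → ℕ) := (Fintype.piFinset fun _ => range C).filter fun u =>
    u 0 = 0 ∧ ∀ i : Fin (d + 1), r ≤ (i : ℕ) → u i = 0 with hBx
  have hSspan : ∀ u, u ∉ S → ∃ F ∈ K, mon y u - F ∈ U k y w (wt w u + 1) := by
    intro u hu
    by_cases h1 : C ≤ wt w u
    · exact ⟨mon y u, hmon u h1, by rw [sub_self]; exact Submodule.zero_mem _⟩
    · by_cases h2 : ∀ i : Fin (d + 1), r ≤ (i : ℕ) → u i = 0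
      · have h3 : u ∈ Fintype.piFinset fun _ : Fin (d + 1) => range C := by
          rw [Fintype.mem_piFinset]
          intro i
          rw [Finset.mem_range]
          have h4 : u i * w i ≤ wt w u :=
            Finset.single_le_sum (f := fun i => u i * w i) (fun _ _ => Nat.zero_le _) (Finset.mem_univ i)
          have h5 : u i ≤ u i * w i := Nat.le_mul_of_pos_right _ (hw i)
          omega
        have h6 : ∑ s ∈ range n, gB B (sp n s u) ≤ u 0 := by
          by_contra h7
          apply hu
          rw [hS, Finset.mem_filter]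
          exact ⟨h3, h2, not_le.mp h7⟩
        obtain ⟨F, hF, hFU⟩ := good_reduce hB n hn u h6
        exact ⟨F, Ideal.mem_sup_left hF, hFU⟩
      · push Not at h2
        obtain ⟨i, hi, hui⟩ := h2
        refine ⟨mon y u, ?_, by rw [sub_self]; exact Submodule.zero_mem _⟩
        apply Ideal.mem_sup_right
        have h8 : y i ∈ Ideal.span {f | ∃ i : Fin (d + 1), r ≤ (i : ℕ) ∧ f = y i} :=
          Ideal.subset_span ⟨i, hi, rfl⟩
        refine Ideal.mem_of_dvd _ ?_ h8
        rw [mon]
        exact (dvd_pow_self _ hui).trans (Finset.dvd_prod_of_mem (fun i => y i ^ u i) (Finset.mem_univ i))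
  have hspan := span_lemma K C hUC S hSspan C 0 (by omega)
  have htop : (⊤ : Submodule k R) ≤ Submodule.span k (mon y '' (S : Set (Fin (d + 1) → ℕ))) ⊔
      K.restrictScalars k := by
    refine (h.top_le w (N * n)).trans (sup_le hspan ?_)
    have h1 : (m ^ (N * n)).restrictScalars k ≤ K.restrictScalars k := by
      intro f hf
      rw [Submodule.restrictScalars_mem, pow_mul] at hf
      exact Ideal.mem_sup_left (Ideal.pow_right_mono hN n hf)
    exact h1.trans le_sup_right
  refine (length_le_card K S htop).trans ?_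
  rw [Nat.cast_le]
  have hcard : S.card ≤ ∑ β ∈ Bx, ∑ s ∈ range n, gB B (sp n s β) := by
    have hsub : S ⊆ Bx.biUnion fun β => (range (∑ s ∈ range n, gB B (sp n s β))).image
        fun a => Function.update β 0 a := by
      intro u hu
      rw [hS, Finset.mem_filter] at hu
      obtain ⟨h1, h2, h3⟩ := hu
      rw [Finset.mem_biUnion]
      have hsp : ∀ s, sp n s (Function.update u 0 0) = sp n s u := fun s =>
        sp_congr n s fun i hi => Function.update_of_ne hi 0 u
      refine ⟨Function.update u 0 0, ?_, ?_⟩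
      · rw [hBx, Finset.mem_filter]
        refine ⟨?_, Function.update_self _ _ _, ?_⟩
        · rw [Fintype.mem_piFinset] at h1 ⊢
          intro i
          by_cases hi : i = 0
          · subst hi
            rw [Function.update_self]
            have := Finset.mem_range.mp (h1 0)
            exact Finset.mem_range.mpr (by omega)
          · rw [Function.update_of_ne hi]
            exact h1 i
        · intro i hi
          by_cases h0 : i = 0
          · rw [h0, Function.update_self]
          · rw [Function.update_of_ne h0]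
            exact h2 i hi
      · rw [Finset.mem_image]
        refine ⟨u 0, ?_, ?_⟩
        · simp only [hsp]
          exact Finset.mem_range.mpr h3
        · rw [Function.update_idem, Function.update_eq_self]
    refine (Finset.card_le_card hsub).trans (Finset.card_biUnion_le.trans ?_)
    apply Finset.sum_le_sum
    intro β _
    refine Finset.card_image_le.trans ?_
    rw [Finset.card_range]
  refine hcard.trans (count_le B n r hn hr Bx ?_)
  intro β hβ
  rw [hBx, Finset.mem_filter] at hβ
  exact hβ.2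

end

end Pool.Agent.U542.Lech
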