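import Pool.Agent.U542.Lech.Stir

/-!
# Counting sequences with prescribed descents, summed over all descent patterns
-/

set_option autoImplicit false

namespace Pool.Agent.U542.Lech

open Finset

/-- the number of sequences `r_0, ..., r_{j-1}, s` in `[0,n)` which are weakly decreasing outside of
the cuts `W` -/
def V (n : ℕ) (W : Finset ℕ) : ℕ → ℕ → ℕ
  | 0, _ => 1
  | j + 1, s => if j + 1 ∈ W then ∑ s' ∈ range n, V n W j s' else ∑ s' ∈ Ico s n, V n W j s'

theorem V_congr (n : ℕ) {W W' : Finset ℕ} (j : ℕ) : ∀ s,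
    (∀ i, 1 ≤ i → i ≤ j → (i ∈ W ↔ i ∈ W')) → V n W j s = V n W' j s := by
  induction j with
  | zero => intro s _; rfl
  | succ j ih =>
    intro s h
    have h1 := fun s' => ih s' (fun i h1 h2 => h i h1 (by omega))
    simp only [V, h1, h (j + 1) (by omega) le_rfl]

/-- sum over all cut patterns of given size -/
def A (n j w s : ℕ) : ℕ := ∑ W ∈ powersetCard w (range (j + 1)), V n W j s

theorem A_zero (n w s : ℕ) : A n 0 w s = Nat.choose 1 w := by
  simp [A, V]

theorem V_not_mem (n j s : ℕ) {W : Finset ℕ} (h : j + 1 ∉ W) :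
    V n W (j + 1) s = ∑ s' ∈ Ico s n, V n W j s' := by
  simp only [V, if_neg h]

theorem V_insert (n j s : ℕ) {W : Finset ℕ} (h : j + 1 ∉ W) :
    V n (insert (j + 1) W) (j + 1) s = ∑ s' ∈ range n, V n W j s' := by
  simp only [V, if_pos (mem_insert_self _ _)]
  apply Finset.sum_congr rfl
  intro s' _
  apply V_congr
  intro i _ hi
  rw [mem_insert]
  constructor
  · rintro (h1 | h1)
    · omega
    · exact h1
  · exact Or.inr

theorem A_succ_zero (n j s : ℕ) : A n (j + 1) 0 s = ∑ s' ∈ Ico s n, A n j 0 s' := by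
  simp only [A, powersetCard_zero, Finset.sum_singleton]
  exact V_not_mem n j s (by simp)

theorem A_succ_succ (n j w s : ℕ) : A n (j + 1) (w + 1) s =
    ∑ s' ∈ Ico s n, A n j (w + 1) s' + ∑ s' ∈ range n, A n j w s' := by
  have hn : j + 1 ∉ range (j + 1) := by simp
  have hsub : ∀ {v : ℕ} {W : Finset ℕ}, W ∈ powersetCard v (range (j + 1)) → j + 1 ∉ W := by
    intro v W hW h
    exact hn ((mem_powersetCard.mp hW).1 h)
  rw [A, Finset.range_add_one (n := j + 1), powersetCard_succ_insert hn, Finset.sum_union]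
  · congr 1
    · rw [Finset.sum_congr rfl (fun W hW => V_not_mem n j s (hsub hW)), Finset.sum_comm]
      rfl
    · rw [Finset.sum_image]
      · rw [Finset.sum_congr rfl (fun W hW => V_insert n j s (hsub hW)), Finset.sum_comm]
        rfl
      · intro W hW W' hW' h
        have h1 : (insert (j + 1) W).erase (j + 1) = (insert (j + 1) W').erase (j + 1) := by
          exact congrArg (fun T => T.erase (j + 1)) h
        rwa [erase_insert (hsub hW), erase_insert (hsub hW')] at h1
  · rw [Finset.disjoint_left]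
    intro W hW hW'
    obtain ⟨W1, _, rfl⟩ := Finset.mem_image.mp hW'
    exact hsub hW (mem_insert_self _ _)

theorem pow_succ_ge (b : ℕ) (y : ℝ) (hy : 0 ≤ y) :
    y ^ (b + 1) + ((b : ℝ) + 1) * y ^ b ≤ (y + 1) ^ (b + 1) := by
  induction b with
  | zero => simp
  | succ b ih =>
    have h1 : (y + 1) * (y ^ (b + 1) + ((b : ℝ) + 1) * y ^ b) ≤ (y + 1) * (y + 1) ^ (b + 1) :=
      mul_le_mul_of_nonneg_left ih (by positivity)
    have h2 : 0 ≤ ((b : ℝ) + 1) * y ^ b := by positivity
    push_cast
    calc y ^ (b + 1 + 1) + ((b : ℝ) + 1 + 1) * y ^ (b + 1)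
        = (y + 1) * (y ^ (b + 1) + ((b : ℝ) + 1) * y ^ b) - ((b : ℝ) + 1) * y ^ b := by ring
      _ ≤ (y + 1) * (y + 1) ^ (b + 1) := by linarith
      _ = (y + 1) ^ (b + 1 + 1) := by ring

theorem term_le (b : ℕ) (y : ℝ) (hy : 0 ≤ y) :
    y ^ b / (b.factorial : ℝ) ≤ (y + 1) ^ (b + 1) / ((b + 1).factorial : ℝ) -
      y ^ (b + 1) / ((b + 1).factorial : ℝ) := by
  have hb : (0 : ℝ) < (b.factorial : ℝ) := by positivity
  have hb1 : ((b + 1).factorial : ℝ) = ((b : ℝ) + 1) * (b.factorial : ℝ) := by
    rw [Nat.factorial_succ]; push_cast; ring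
  rw [← sub_div, hb1, div_le_div_iff₀ hb (by positivity)]
  have h := pow_succ_ge b y hy
  have h3 := mul_le_mul_of_nonneg_right h hb.le
  nlinarith

theorem sum_Ico_le (n j b : ℕ) (m : ℕ) : ∀ s, s + m = n →
    ∑ s' ∈ Ico s n, ((n : ℝ) - s' + j) ^ b / (b.factorial : ℝ) ≤
      ((n : ℝ) - s + j + 1) ^ (b + 1) / ((b + 1).factorial : ℝ) := by
  induction m with
  | zero =>
    intro s hs
    have : s = n := by omega
    subst this
    simp only [Ico_self, Finset.sum_empty, sub_self, zero_add]
    positivity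
  | succ m ih =>
    intro s hs
    rw [Finset.sum_eq_sum_Ico_succ_bot (by omega)]
    have h1 := ih (s + 1) (by omega)
    have hns : (0 : ℝ) ≤ (n : ℝ) - s := by
      rw [sub_nonneg]; exact_mod_cast (by omega : s ≤ n)
    have h2 := term_le b ((n : ℝ) - s + j) (by positivity)
    have h3 : (n : ℝ) - ((s + 1 : ℕ) : ℝ) + j + 1 = (n : ℝ) - s + j := by push_cast; ring
    rw [h3] at h1
    linarith

theorem A_sum_le (n : ℕ) (X : ℝ) (j w : ℕ) (hX : (n : ℝ) + j + 1 ≤ X)
    (h : ∀ s, s ≤ n → (A n j w s : ℝ) ≤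
      ∑ b ∈ range (j + 1), kap (j - b) w * X ^ (j - b) * (((n : ℝ) - s + j) ^ b / (b.factorial : ℝ))) :
    ∑ s ∈ range n, (A n j w s : ℝ) ≤ X ^ (j + 1) * eta (j + 1) w := by
  have hX0 : 0 ≤ X := le_trans (by positivity) hX
  calc ∑ s ∈ range n, (A n j w s : ℝ)
      ≤ ∑ s ∈ range n, ∑ b ∈ range (j + 1),
          kap (j - b) w * X ^ (j - b) * (((n : ℝ) - s + j) ^ b / (b.factorial : ℝ)) := by
        apply Finset.sum_le_sum
        intro s hs
        exact h s (Finset.mem_range.mp hs).le
    _ = ∑ b ∈ range (j + 1), kap (j - b) w * X ^ (j - b) *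
          ∑ s ∈ range n, (((n : ℝ) - s + j) ^ b / (b.factorial : ℝ)) := by
        rw [Finset.sum_comm]
        apply Finset.sum_congr rfl
        intro b _
        rw [Finset.mul_sum]
    _ ≤ ∑ b ∈ range (j + 1), X ^ (j + 1) * (kap (j - b) w / ((b + 1).factorial : ℝ)) := by
        apply Finset.sum_le_sum
        intro b hb
        have h1 := sum_Ico_le n j b n 0 (by omega)
        rw [← Finset.range_eq_Ico] at h1
        have h2 : ((n : ℝ) - ((0 : ℕ) : ℝ) + j + 1) ^ (b + 1) / ((b + 1).factorial : ℝ) ≤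
            X ^ (b + 1) / ((b + 1).factorial : ℝ) := by
          apply div_le_div_of_nonneg_right _ (by positivity)
          apply pow_le_pow_left₀
          · simp only [Nat.cast_zero, sub_zero]
            positivity
          · simpa using hX
        have h3 : X ^ (j + 1) = X ^ (j - b) * X ^ (b + 1) := by
          rw [← pow_add]
          congr 1
          have := Finset.mem_range.mp hb
          omega
        calc _ ≤ kap (j - b) w * X ^ (j - b) * (X ^ (b + 1) / ((b + 1).factorial : ℝ)) := by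
              apply mul_le_mul_of_nonneg_left (h1.trans h2)
              exact mul_nonneg (kap_nonneg _ _) (pow_nonneg hX0 _)
          _ = _ := by rw [h3]; ring
    _ = X ^ (j + 1) * eta (j + 1) w := by
        rw [← Finset.mul_sum, ← eta_comp]

theorem A_le (n : ℕ) (X : ℝ) (j : ℕ) : (n : ℝ) + j ≤ X → ∀ w s, s ≤ n → (A n j w s : ℝ) ≤
      ∑ b ∈ range (j + 1), kap (j - b) w * X ^ (j - b) *
        (((n : ℝ) - s + j) ^ b / (b.factorial : ℝ)) := by
  induction j with
  | zero =>
    intro hX w s hs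
    rw [A_zero]
    simp only [zero_add, Finset.sum_range_one, Nat.sub_self, pow_zero, mul_one, Nat.factorial_zero,
      Nat.cast_one, div_one]
    rcases w with _ | w
    · simp [kap]
    · rw [kap_succ, eta_zero]
      rcases w with _ | w
      · simp
      · rw [Nat.choose_eq_zero_of_lt (by omega)]
        simp
  | succ j ih =>
    intro hX w s hs
    push_cast at hX
    have hX0 : 0 ≤ X := le_trans (by positivity) hX
    have ih' := ih (by linarith)
    -- the terms `b + 1`
    have hfirst : ∀ w, ∑ s' ∈ Ico s n, (A n j w s' : ℝ) ≤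
        ∑ b ∈ range (j + 1), kap (j - b) w * X ^ (j - b) *
          (((n : ℝ) - s + (j + 1 : ℕ)) ^ (b + 1) / ((b + 1).factorial : ℝ)) := by
      intro w
      calc ∑ s' ∈ Ico s n, (A n j w s' : ℝ) ≤ ∑ s' ∈ Ico s n, ∑ b ∈ range (j + 1),
            kap (j - b) w * X ^ (j - b) * (((n : ℝ) - s' + j) ^ b / (b.factorial : ℝ)) := by
            apply Finset.sum_le_sum
            intro s' hs'
            exact ih' w s' (Finset.mem_Ico.mp hs').2.le
        _ = ∑ b ∈ range (j + 1), kap (j - b) w * X ^ (j - b) *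
              ∑ s' ∈ Ico s n, (((n : ℝ) - s' + j) ^ b / (b.factorial : ℝ)) := by
            rw [Finset.sum_comm]
            apply Finset.sum_congr rfl
            intro b _
            rw [Finset.mul_sum]
        _ ≤ _ := by
            apply Finset.sum_le_sum
            intro b _
            have h1 := sum_Ico_le n j b (n - s) s (by omega)
            have h2 : (n : ℝ) - s + j + 1 = (n : ℝ) - s + (j + 1 : ℕ) := by push_cast; ring
            rw [h2] at h1
            apply mul_le_mul_of_nonneg_left h1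
            exact mul_nonneg (kap_nonneg _ _) (pow_nonneg hX0 _)
    rw [Finset.sum_range_succ']
    have hre : ∑ k ∈ range (j + 1), kap (j + 1 - (k + 1)) w * X ^ (j + 1 - (k + 1)) *
          (((n : ℝ) - s + (j + 1 : ℕ)) ^ (k + 1) / ((k + 1).factorial : ℝ)) =
        ∑ b ∈ range (j + 1), kap (j - b) w * X ^ (j - b) *
          (((n : ℝ) - s + (j + 1 : ℕ)) ^ (b + 1) / ((b + 1).factorial : ℝ)) := by
      apply Finset.sum_congr rfl
      intro b _
      have : j + 1 - (b + 1) = j - b := by omega
      rw [this]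
    rw [hre]
    simp only [Nat.sub_zero, pow_zero, Nat.factorial_zero, Nat.cast_one, div_one, mul_one]
    rcases w with _ | w
    · rw [A_succ_zero]
      push_cast
      have h1 := hfirst 0
      have h2 : 0 ≤ kap (j + 1) 0 * X ^ (j + 1) := mul_nonneg (kap_nonneg _ _) (pow_nonneg hX0 _)
      push_cast at h1
      linarith
    · rw [A_succ_succ]
      push_cast
      have h1 := hfirst (w + 1)
      have h2 := A_sum_le n X j w (by linarith) (ih' w)
      rw [kap_succ]
      push_cast at h1
      linarith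

/-- the total count -/
theorem V_sum_le (n k w : ℕ) (hk : 1 ≤ k) :
    ((∑ W ∈ powersetCard w (range k), ∑ s ∈ range n, V n W (k - 1) s : ℕ) : ℝ) ≤
      ((n : ℝ) + k) ^ k * eta k w := by
  obtain ⟨j, rfl⟩ : ∃ j, k = j + 1 := ⟨k - 1, by omega⟩
  rw [Finset.sum_comm]
  have h := A_sum_le n ((n : ℝ) + (j + 1 : ℕ)) j w (by push_cast; linarith)
    (A_le n _ j (by push_cast; linarith) w)
  push_cast at h ⊢
  simpa [A] using h

end Pool.Agent.U542.Lech
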