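import Pool.Agent.U542.Lech.Alg

/-!
# A generic initial set of exponents
-/

set_option autoImplicit false

namespace Pool.Agent.U542.Lech

open Finset

section

variable {R : Type*} [CommRing R] {k : Type*} [Field k] [Algebra k R]

/-- a linear functional of a polynomial family is polynomial -/
theorem exists_poly {σ : Type*} (Q : MvPolynomial σ R) (f : R →ₗ[k] k) :
    ∃ q : MvPolynomial σ k, ∀ c : σ → k, MvPolynomial.eval c q =
      f (MvPolynomial.eval (fun i => algebraMap k R (c i)) Q) := by
  classical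
  refine ⟨∑ m ∈ Q.support, MvPolynomial.monomial m (f (Q.coeff m)), fun c => ?_⟩
  rw [map_sum, MvPolynomial.eval_eq, map_sum]
  apply Finset.sum_congr rfl
  intro m _
  rw [MvPolynomial.eval_monomial]
  have h1 : Q.coeff m * ∏ i ∈ m.support, algebraMap k R (c i) ^ m i =
      (∏ i ∈ m.support, c i ^ m i) • Q.coeff m := by
    rw [Algebra.smul_def, map_prod, mul_comm]
    congr 1
    apply Finset.prod_congr rfl
    intro i _
    rw [map_pow]
  rw [h1, map_smul, smul_eq_mul, mul_comm]
  rfl

variable {d : ℕ}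

/-- linear forms -/
def lin (x : Fin (d + 1) → R) (c : Fin (d + 1) → Fin (d + 1) → k) : Fin (d + 1) → R :=
  fun i => ∑ t, c i t • x t

variable (k) in
/-- the generic monomials -/
noncomputable def monP (x : Fin (d + 1) → R) (u : Fin (d + 1) → ℕ) :
    MvPolynomial (Fin (d + 1) × Fin (d + 1)) R :=
  ∏ i, (∑ t, MvPolynomial.X (i, t) * MvPolynomial.C (x t)) ^ u i

theorem eval_monP (x : Fin (d + 1) → R) (u : Fin (d + 1) → ℕ)
    (c : Fin (d + 1) → Fin (d + 1) → k) :
    MvPolynomial.eval (fun p => algebraMap k R (c p.1 p.2)) (monP x u) = mon (lin x c) u := by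
  simp only [monP, mon, lin, map_prod, map_pow, map_sum, map_mul, MvPolynomial.eval_X,
    MvPolynomial.eval_C, Algebra.smul_def]

theorem exists_max {ι : Type*} [Fintype ι] [DecidableEq ι] {P : ι → Prop} (f : ι → ℕ)
    (h : ∃ i, P i) : ∃ i, P i ∧ ∀ j, P j → f j ≤ f i := by
  classical
  obtain ⟨i0, hi0⟩ := h
  obtain ⟨i, hi, hmax⟩ := Finset.exists_max_image (univ.filter P) f
    ⟨i0, Finset.mem_filter.mpr ⟨Finset.mem_univ _, hi0⟩⟩
  exact ⟨i, (Finset.mem_filter.mp hi).2, fun j hj => hmax j
    (Finset.mem_filter.mpr ⟨Finset.mem_univ _, hj⟩)⟩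

theorem Coord.mon_mem_of_ge {m : Ideal R} {y : Fin (d + 1) → R} (hy : ∀ i, y i ∈ m)
    {I : Ideal R} {N : ℕ} (hN : m ^ N ≤ I) (u : Fin (d + 1) → ℕ) (i : Fin (d + 1)) (hi : N ≤ u i) :
    mon y u ∈ I := by
  have h1 : y i ^ u i ∈ I := hN (Ideal.pow_le_pow_right hi (Ideal.pow_mem_pow (hy i) _))
  exact Ideal.mem_of_dvd _ (Finset.dvd_prod_of_mem (fun i => y i ^ u i) (Finset.mem_univ i)) h1

theorem lin_mem {m : Ideal R} {x : Fin (d + 1) → R} (hx : ∀ i, x i ∈ m)
    (c : Fin (d + 1) → Fin (d + 1) → k) (i : Fin (d + 1)) : lin x c i ∈ m := by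
  apply Ideal.sum_mem
  intro t _
  rw [Algebra.smul_def]
  exact Ideal.mul_mem_left _ _ (hx t)

theorem span_box {m : Ideal R} {x : Fin (d + 1) → R} (hx : Coord k m x) {I : Ideal R} (N : ℕ)
    (hN : m ^ N ≤ I) : Submodule.span k (Set.range fun e : Fin (d + 1) → Fin N =>
      Ideal.Quotient.mk I (mon x fun i => (e i : ℕ))) = ⊤ := by
  rw [eq_top_iff]
  rintro q -
  obtain ⟨r, rfl⟩ := Ideal.Quotient.mk_surjective q
  obtain ⟨a, ha, b, hb, rfl⟩ := Submodule.mem_sup.mp
    (hx.top_le (fun _ => 0) N (Submodule.mem_top (x := r)))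
  have hb' : Ideal.Quotient.mk I b = 0 := Ideal.Quotient.eq_zero_iff_mem.mpr (hN hb)
  rw [map_add, hb', add_zero]
  have h2 := Submodule.mem_map_of_mem (f := (Ideal.Quotient.mkₐ k I).toLinearMap) ha
  rw [U, Submodule.map_span] at h2
  refine (Submodule.span_le.mpr ?_) h2
  rintro _ ⟨_, ⟨u, -, rfl⟩, rfl⟩
  by_cases hu : ∀ i, u i < N
  · exact Submodule.subset_span ⟨fun i => ⟨u i, hu i⟩, rfl⟩
  · push Not at hu
    obtain ⟨i, hi⟩ := hu
    have h3 : Ideal.Quotient.mk I (mon x u) = 0 :=
      Ideal.Quotient.eq_zero_iff_mem.mpr (Coord.mon_mem_of_ge hx.mem hN u i hi)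
    change Ideal.Quotient.mk I (mon x u) ∈ _
    rw [h3]
    exact Submodule.zero_mem _

theorem finite_quot {m : Ideal R} {x : Fin (d + 1) → R} (hx : Coord k m x) {I : Ideal R} (N : ℕ)
    (hN : m ^ N ≤ I) : Module.Finite k (R ⧸ I) := by
  refine ⟨⟨(Set.finite_range fun e : Fin (d + 1) → Fin N =>
    Ideal.Quotient.mk I (mon x fun i => (e i : ℕ))).toFinset, ?_⟩⟩
  rw [Set.Finite.coe_toFinset]
  exact span_box hx N hN

theorem gin {m : Ideal R} {x : Fin (d + 1) → R} (hx : Coord k m x) {I : Ideal R} (N : ℕ)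
    (hN1 : 1 ≤ N) (hN : m ^ N ≤ I) :
    ∃ (w : Fin (d + 1) → ℕ) (B : Finset (Fin (d + 1) → ℕ))
      (Q : MvPolynomial (Fin (d + 1) × Fin (d + 1)) k),
      (∀ i, 1 ≤ w i) ∧ B.card ≤ Module.finrank k (R ⧸ I) ∧ Q ≠ 0 ∧
      ∀ c : Fin (d + 1) → Fin (d + 1) → k, MvPolynomial.eval (fun p => c p.1 p.2) Q ≠ 0 →
        Good k (lin x c) w I B := by
  classical
  set w : Fin (d + 1) → ℕ := fun i => N ^ (i : ℕ) with hw
  set L := Module.finrank k (R ⧸ I) with hL
  have hspan := span_box hx N hN
  have hfin : Module.Finite k (R ⧸ I) := finite_quot hx N hN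
  let bas := Module.finBasis k (R ⧸ I)
  let π : R →ₗ[k] (Fin L → k) :=
    bas.equivFun.toLinearMap ∘ₗ (Ideal.Quotient.mkₐ k I).toLinearMap
  have hπ : ∀ r, π r = bas.equivFun (Ideal.Quotient.mk I r) := fun r => rfl
  have hπ0 : ∀ r, π r = 0 ↔ r ∈ I := by
    intro r
    rw [hπ, LinearEquiv.map_eq_zero_iff, Ideal.Quotient.eq_zero_iff_mem]
  -- the polynomials
  choose q hq using fun (e : Fin (d + 1) → Fin N) (a : Fin L) =>
    exists_poly (k := k) (monP x fun i => (e i : ℕ)) ((LinearMap.proj a) ∘ₗ π)
  have hq' : ∀ e a (c : Fin (d + 1) → Fin (d + 1) → k),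
      MvPolynomial.eval (fun p => c p.1 p.2) (q e a) = π (mon (lin x c) fun i => (e i : ℕ)) a := by
    intro e a c
    rw [hq e a (fun p => c p.1 p.2), eval_monP]
    rfl
  let Δ : (Fin L → (Fin (d + 1) → Fin N)) → MvPolynomial (Fin (d + 1) × Fin (d + 1)) k :=
    fun b => Matrix.det (Matrix.of fun a j => q (b j) a)
  have hΔ : ∀ b (c : Fin (d + 1) → Fin (d + 1) → k), MvPolynomial.eval (fun p => c p.1 p.2) (Δ b) =
      Matrix.det (Matrix.of fun a j => π (mon (lin x c) fun i => (b j i : ℕ)) a) := by
    intro b c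
    simp only [Δ]
    rw [RingHom.map_det]
    congr 1
    ext a j
    exact hq' (b j) a c
  -- existence
  have hex : ∃ b, Δ b ≠ 0 := by
    have h1 := Submodule.exists_fun_fin_finrank_span_eq k (Set.range
      fun e : Fin (d + 1) → Fin N => Ideal.Quotient.mk I (mon x fun i => (e i : ℕ)))
    rw [hspan, finrank_top] at h1
    obtain ⟨f, hf, -, hind⟩ := h1
    choose b hb using hf
    refine ⟨b, fun h0 => ?_⟩
    have h2 := hΔ b (fun i t => if i = t then 1 else 0)
    rw [h0, map_zero] at h2
    have hlin : lin x (fun i t => if i = t then (1 : k) else 0) = x := by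
      funext i
      simp [lin]
    rw [hlin] at h2
    have h3 : LinearIndependent k (fun j => π (mon x fun i => (b j i : ℕ))) := by
      have h4 : (fun j => π (mon x fun i => (b j i : ℕ))) = bas.equivFun ∘ f := by
        funext j
        rw [hπ]
        simp only at hb
        rw [hb j]
        rfl
      rw [h4]
      exact hind.map' bas.equivFun.toLinearMap (LinearEquiv.ker _)
    have h5 : IsUnit (Matrix.of fun a j => π (mon x fun i => (b j i : ℕ)) a) := by
      rw [← Matrix.linearIndependent_cols_iff_isUnit]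
      exact h3
    rw [Matrix.isUnit_iff_isUnit_det, ← h2] at h5
    exact not_isUnit_zero h5
  obtain ⟨b, hb0, hbmax⟩ := exists_max (P := fun b => Δ b ≠ 0)
    (fun b => ∑ j, wt w fun i => (b j i : ℕ)) hex
  refine ⟨w, univ.image fun j => fun i => (b j i : ℕ), Δ b, fun i => Nat.one_le_pow _ _ hN1, ?_,
    hb0, ?_⟩
  · refine Finset.card_image_le.trans ?_
    rw [Finset.card_univ, Fintype.card_fin]
  · intro c hc u hu
    have hy := lin_mem hx.mem c
    by_cases hbox : ∀ i, u i < N
    · set e : Fin (d + 1) → Fin N := fun i => ⟨u i, hbox i⟩ with he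
      set Mx : Matrix (Fin L) (Fin L) k :=
        Matrix.of fun a j => π (mon (lin x c) fun i => (b j i : ℕ)) a with hMx
      have hdet : Mx.det ≠ 0 := by rw [hMx, ← hΔ]; exact hc
      set v : Fin L → k := π (mon (lin x c) u) with hv
      have hcr := Matrix.mulVec_cramer Mx v
      have hup : ∀ j, Matrix.cramer Mx v j =
          MvPolynomial.eval (fun p => c p.1 p.2) (Δ (Function.update b j e)) := by
        intro j
        rw [Matrix.cramer_apply, hΔ]
        congr 1
        ext a j'
        by_cases hj : j' = j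
        · subst hj
          rw [Matrix.updateCol_self]
          simp only [Matrix.of_apply, Function.update_self, he, hv]
        · rw [Matrix.updateCol_ne hj]
          simp only [Matrix.of_apply, Function.update_of_ne hj, hMx]
      -- coefficients
      set α : Fin L → k := fun j => Mx.det⁻¹ * Matrix.cramer Mx v j with hα
      have hexp : v = ∑ j, α j • π (mon (lin x c) fun i => (b j i : ℕ)) := by
        have h1 : v = Mx.det⁻¹ • (Mx.mulVec (Matrix.cramer Mx v)) := by
          rw [hcr, smul_smul, inv_mul_cancel₀ hdet, one_smul]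
        conv_lhs => rw [h1]
        funext a
        rw [Pi.smul_apply, Matrix.mulVec, dotProduct, smul_eq_mul, Finset.mul_sum,
          Finset.sum_apply]
        apply Finset.sum_congr rfl
        intro j _
        rw [Pi.smul_apply, smul_eq_mul]
        simp only [hα, hMx, Matrix.of_apply]
        ring
      have hα0 : ∀ j, α j ≠ 0 → wt w u + 1 ≤ wt w fun i => (b j i : ℕ) := by
        intro j hj
        have h1 : Δ (Function.update b j e) ≠ 0 := by
          intro h0
          apply hj
          simp only [hα]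
          rw [hup, h0, map_zero, mul_zero]
        have h2 := hbmax _ h1
        have h3 : ∑ j', wt w (fun i => (Function.update b j e j' i : ℕ)) +
            wt w (fun i => (b j i : ℕ)) = ∑ j', wt w (fun i => (b j' i : ℕ)) + wt w u := by
          rw [← Finset.add_sum_erase univ _ (Finset.mem_univ j),
            ← Finset.add_sum_erase univ (fun j' => wt w (fun i => (b j' i : ℕ)))
              (Finset.mem_univ j)]
          have h4 : ∑ j' ∈ univ.erase j, wt w (fun i => (Function.update b j e j' i : ℕ)) =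
              ∑ j' ∈ univ.erase j, wt w (fun i => (b j' i : ℕ)) := by
            apply Finset.sum_congr rfl
            intro j' hj'
            rw [Function.update_of_ne (Finset.ne_of_mem_erase hj')]
          rw [h4]
          simp only [Function.update_self, he]
          ring
        have h5 : wt w u ≤ wt w fun i => (b j i : ℕ) := by omega
        rcases lt_or_eq_of_le h5 with h6 | h6
        · exact h6
        · exfalso
          apply hu
          have h7 : finFunctionFinEquiv e = finFunctionFinEquiv (b j) := by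
            apply Fin.ext
            rw [finFunctionFinEquiv_apply, finFunctionFinEquiv_apply]
            exact h6
          have h8 : e = b j := finFunctionFinEquiv.injective h7
          rw [Finset.mem_image]
          refine ⟨j, Finset.mem_univ _, ?_⟩
          rw [← h8]
      refine ⟨mon (lin x c) u - ∑ j, α j • mon (lin x c) fun i => (b j i : ℕ), ?_, ?_⟩
      · rw [← hπ0, map_sub, map_sum, sub_eq_zero]
        change v = _
        rw [hexp]
        apply Finset.sum_congr rfl
        intro j _
        rw [map_smul]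
      · rw [sub_sub_cancel]
        apply Submodule.sum_mem
        intro j _
        by_cases hj : α j = 0
        · rw [hj, zero_smul]; exact Submodule.zero_mem _
        · exact Submodule.smul_mem _ _ (mon_mem_U (hα0 j hj))
    · push Not at hbox
      obtain ⟨i, hi⟩ := hbox
      exact ⟨mon (lin x c) u, Coord.mon_mem_of_ge hy hN u i hi, by
        rw [sub_self]; exact Submodule.zero_mem _⟩

end

end Pool.Agent.U542.Lech
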