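import Pool.Agent.U542.Lech.Cnt

/-!
# Splitting an exponent vector into `n` pieces
-/

set_option autoImplicit false

namespace Pool.Agent.U542.Lech

open Finset

variable {d : ℕ}

/-- tail sums -/
def tl (u : Fin (d + 1) → ℕ) (j : ℕ) : ℕ := ∑ i : Fin (d + 1), if j ≤ (i : ℕ) then u i else 0

theorem tl_eq (u : Fin (d + 1) → ℕ) (i : Fin (d + 1)) :
    tl u (i : ℕ) = u i + tl u ((i : ℕ) + 1) := by
  rw [tl, tl, ← Finset.add_sum_erase univ _ (Finset.mem_univ i),
    ← Finset.add_sum_erase univ (fun j : Fin (d + 1) => if (i : ℕ) + 1 ≤ (j : ℕ) then u j else 0)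
      (Finset.mem_univ i)]
  rw [if_pos le_rfl, if_neg (by omega), zero_add]
  congr 1
  apply Finset.sum_congr rfl
  intro j hj
  have hj' : (j : ℕ) ≠ (i : ℕ) := fun h => (Finset.mem_erase.mp hj).1 (Fin.ext h)
  have : ((i : ℕ) ≤ (j : ℕ)) ↔ ((i : ℕ) + 1 ≤ (j : ℕ)) := by omega
  simp only [this]

theorem tl_anti (u : Fin (d + 1) → ℕ) (j : ℕ) : tl u (j + 1) ≤ tl u j := by
  apply Finset.sum_le_sum
  intro i _
  split_ifs with h1 h2
  · exact le_rfl
  · omega
  · exact Nat.zero_le _
  · exact le_rfl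

theorem tl_zero_of (u : Fin (d + 1) → ℕ) (k : ℕ) (h : ∀ i : Fin (d + 1), k ≤ (i : ℕ) → u i = 0) :
    tl u k = 0 := by
  apply Finset.sum_eq_zero
  intro i _
  split_ifs with h1
  · exact h i h1
  · rfl

theorem tl_ge (u : Fin (d + 1) → ℕ) (j : ℕ) (h : d + 1 ≤ j) : tl u j = 0 :=
  tl_zero_of u j fun i hi => by have := i.2; omega

/-- the pieces -/
def sp (n s : ℕ) (u : Fin (d + 1) → ℕ) : Fin (d + 1) → ℕ :=
  fun i => if i = 0 then 0 else (tl u (i : ℕ) + s) / n - (tl u ((i : ℕ) + 1) + s) / n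

theorem sp_zero (n s : ℕ) (u : Fin (d + 1) → ℕ) : sp n s u 0 = 0 := by simp [sp]

theorem sp_ne (n s : ℕ) (u : Fin (d + 1) → ℕ) {i : Fin (d + 1)} (hi : i ≠ 0) :
    sp n s u i = (tl u (i : ℕ) + s) / n - (tl u ((i : ℕ) + 1) + s) / n := by simp [sp, hi]

theorem div_anti (n s : ℕ) (u : Fin (d + 1) → ℕ) (j : ℕ) :
    (tl u (j + 1) + s) / n ≤ (tl u j + s) / n :=
  Nat.div_le_div_right (Nat.add_le_add_right (tl_anti u j) s)

theorem sp_eq_zero (n s : ℕ) (hs : s < n) (u : Fin (d + 1) → ℕ) (k : ℕ)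
    (h : ∀ i : Fin (d + 1), k ≤ (i : ℕ) → u i = 0) (i : Fin (d + 1)) (hi : k ≤ (i : ℕ)) :
    sp n s u i = 0 := by
  by_cases h0 : i = 0
  · rw [h0, sp_zero]
  · rw [sp_ne n s u h0, tl_zero_of u i (fun j hj => h j (le_trans hi hj)), zero_add,
      Nat.div_eq_of_lt hs, Nat.zero_sub]

theorem hermite (n t : ℕ) (hn : 0 < n) : ∑ s ∈ range n, (t + s) / n = t := by
  induction t with
  | zero =>
    apply Finset.sum_eq_zero
    intro s hs
    rw [zero_add, Nat.div_eq_of_lt (Finset.mem_range.mp hs)]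
  | succ t ih =>
    have h1 : ∑ s ∈ range n, (t + 1 + s) / n + t / n = ∑ s ∈ range n, (t + s) / n + (t + n) / n := by
      rw [← Finset.sum_range_succ (fun s => (t + s) / n), Finset.sum_range_succ' (fun s => (t + s) / n)]
      simp only [add_zero]
      congr 1
      apply Finset.sum_congr rfl
      intro s _
      congr 1
      ring
    rw [ih, Nat.add_div_right t hn] at h1
    omega

theorem sum_sp (n : ℕ) (hn : 0 < n) (u : Fin (d + 1) → ℕ) {i : Fin (d + 1)} (hi : i ≠ 0) :
    ∑ s ∈ range n, sp n s u i = u i := by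
  simp only [sp_ne _ _ _ hi]
  rw [Finset.sum_tsub_distrib _ (fun s _ => div_anti n s u (i : ℕ)), hermite n _ hn, hermite n _ hn,
    tl_eq u i, Nat.add_sub_cancel]

theorem tl_sp (n s : ℕ) (hs : s < n) (u : Fin (d + 1) → ℕ) (m : ℕ) : ∀ j, 1 ≤ j → d + 1 ≤ j + m →
    tl (sp n s u) j = (tl u j + s) / n := by
  induction m with
  | zero =>
    intro j hj hm
    rw [tl_ge _ _ (by omega), tl_ge _ _ (by omega), zero_add, Nat.div_eq_of_lt hs]
  | succ m ih =>
    intro j hj hm
    by_cases hd : d + 1 ≤ j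
    · rw [tl_ge _ _ hd, tl_ge _ _ hd, zero_add, Nat.div_eq_of_lt hs]
    · push Not at hd
      have h1 := tl_eq (sp n s u) ⟨j, hd⟩
      have h2 := ih (j + 1) (by omega) (by omega)
      have h3 : (⟨j, hd⟩ : Fin (d + 1)) ≠ 0 := by
        intro h
        have := congrArg Fin.val h
        simp at this
        omega
      rw [sp_ne n s u h3] at h1
      simp only at h1
      rw [h1, h2]
      exact Nat.sub_add_cancel (div_anti n s u j)

theorem tl_sp' (n s : ℕ) (hs : s < n) (u : Fin (d + 1) → ℕ) (j : ℕ) (hj : 1 ≤ j) :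
    tl (sp n s u) j = (tl u j + s) / n := tl_sp n s hs u (d + 1) j hj (by omega)

/-- the first missing exponent of the variable `0` -/
noncomputable def gB (B : Finset (Fin (d + 1) → ℕ)) (v : Fin (d + 1) → ℕ) : ℕ :=
  sInf {a | Function.update v 0 a ∉ B}

theorem gB_notMem (B : Finset (Fin (d + 1) → ℕ)) (v : Fin (d + 1) → ℕ) :
    Function.update v 0 (gB B v) ∉ B := by
  have hne : {a | Function.update v 0 a ∉ B}.Nonempty := by
    refine ⟨B.sup (fun u => u 0) + 1, fun h => ?_⟩
    have h1 := Finset.le_sup (f := fun u : Fin (d + 1) → ℕ => u 0) h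
    simp only [Function.update_self] at h1
    omega
  exact Nat.sInf_mem hne

theorem gB_mem (B : Finset (Fin (d + 1) → ℕ)) (v : Fin (d + 1) → ℕ) {a : ℕ} (ha : a < gB B v) :
    Function.update v 0 a ∈ B := by
  by_contra h
  exact Nat.notMem_of_lt_sInf ha h

theorem gB_le (B : Finset (Fin (d + 1) → ℕ)) (v : Fin (d + 1) → ℕ) (hv : v 0 = 0) :
    gB B v ≤ (B.filter fun u => Function.update u 0 0 = v).card := by
  have h := Finset.card_le_card_of_injOn (s := range (gB B v))
    (t := B.filter fun u => Function.update u 0 0 = v) (fun a => Function.update v 0 a)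
    (by
      intro a ha
      have ha' := Finset.mem_range.mp (Finset.mem_coe.mp ha)
      rw [Finset.mem_coe, Finset.mem_filter]
      refine ⟨gB_mem B v ha', ?_⟩
      have h1 : Function.update v 0 (v 0) = v := Function.update_eq_self 0 v
      rw [hv] at h1
      rw [Function.update_idem, h1])
    (by
      intro a _ a' _ h
      have := congrFun h 0
      simpa using this)
  rwa [Finset.card_range] at h

/-- lists of residues -/
def Ls (n : ℕ) (W : Finset ℕ) : ℕ → ℕ → Finset (List ℕ)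
  | 0, s => {[s]}
  | j + 1, s => (if j + 1 ∈ W then range n else Ico s n).biUnion fun s' =>
      (Ls n W j s').image (List.cons s)

theorem card_Ls_le (n : ℕ) (W : Finset ℕ) (j : ℕ) : ∀ s, (Ls n W j s).card ≤ V n W j s := by
  induction j with
  | zero => intro s; simp [Ls, V]
  | succ j ih =>
    intro s
    rw [Ls, V]
    refine Finset.card_biUnion_le.trans ?_
    split_ifs
    · exact Finset.sum_le_sum fun s' _ => Finset.card_image_le.trans (ih s')
    · exact Finset.sum_le_sum fun s' _ => Finset.card_image_le.trans (ih s')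

/-- the list of residues of the tail sums -/
def RL (n s : ℕ) (u : Fin (d + 1) → ℕ) : ℕ → List ℕ
  | 0 => [(tl u 1 + s) % n]
  | j + 1 => ((tl u (j + 2) + s) % n) :: RL n s u j

theorem RL_mem (n s : ℕ) (hn : 0 < n) (u : Fin (d + 1) → ℕ) (W : Finset ℕ) (j : ℕ) :
    (∀ i, 1 ≤ i → i ≤ j → i ∉ W → (tl u i + s) / n = (tl u (i + 1) + s) / n) →
    RL n s u j ∈ Ls n W j ((tl u (j + 1) + s) % n) := by
  induction j with
  | zero => intro _; simp [RL, Ls]
  | succ j ih =>
    intro h
    rw [RL, Ls, Finset.mem_biUnion]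
    refine ⟨(tl u (j + 1) + s) % n, ?_, ?_⟩
    · split_ifs with hW
      · exact Finset.mem_range.mpr (Nat.mod_lt _ hn)
      · rw [Finset.mem_Ico]
        refine ⟨?_, Nat.mod_lt _ hn⟩
        have h1 := h (j + 1) (by omega) le_rfl hW
        have h2 := Nat.div_add_mod (tl u (j + 1) + s) n
        have h3 := Nat.div_add_mod (tl u (j + 1 + 1) + s) n
        have h4 := tl_anti u (j + 1)
        rw [h1] at h2
        have h5 : (tl u (j + 1 + 1) + s) % n ≤ (tl u (j + 1) + s) % n := by omega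
        exact h5
    · exact Finset.mem_image_of_mem _ (ih fun i h1 h2 h3 => h i h1 (by omega) h3)

theorem RL_inj (n s s' : ℕ) (u u' : Fin (d + 1) → ℕ) (j : ℕ) (h : RL n s u j = RL n s' u' j) :
    ∀ i, 1 ≤ i → i ≤ j + 1 → (tl u i + s) % n = (tl u' i + s') % n := by
  induction j with
  | zero =>
    intro i h1 h2
    have : i = 1 := by omega
    subst this
    simpa [RL] using h
  | succ j ih =>
    intro i h1 h2
    rw [RL, RL, List.cons.injEq] at h
    by_cases hi : i = j + 2
    · subst hi; exact h.1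
    · exact ih h.2 i h1 (by omega)

/-- the support as a set of natural numbers -/
def suppN (u : Fin (d + 1) → ℕ) : Finset ℕ := (univ.filter fun i => u i ≠ 0).map Fin.valEmbedding

theorem mem_suppN (u : Fin (d + 1) → ℕ) (i : ℕ) : i ∈ suppN u ↔ ∃ h : i < d + 1, u ⟨i, h⟩ ≠ 0 := by
  rw [suppN, Finset.mem_map]
  constructor
  · rintro ⟨x, hx, rfl⟩
    exact ⟨x.2, (Finset.mem_filter.mp hx).2⟩
  · rintro ⟨h, hu⟩
    exact ⟨⟨i, h⟩, Finset.mem_filter.mpr ⟨Finset.mem_univ _, hu⟩, rfl⟩

theorem fiber_le (n k : ℕ) (hn : 0 < n) (hk : 1 ≤ k) (Bx : Finset (Fin (d + 1) → ℕ))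
    (hBx : ∀ β ∈ Bx, β 0 = 0 ∧ ∀ i : Fin (d + 1), k ≤ (i : ℕ) → β i = 0) (u : Fin (d + 1) → ℕ) :
    ((Bx ×ˢ range n).filter fun p => Function.update u 0 0 = sp n p.2 p.1).card ≤
      if (∀ i : Fin (d + 1), k ≤ (i : ℕ) → u i = 0) then ∑ s ∈ range n, V n (suppN u) (k - 1) s
      else 0 := by
  split_ifs with hu
  · obtain ⟨j, rfl⟩ : ∃ j, k = j + 1 := ⟨k - 1, by omega⟩
    rw [Nat.add_sub_cancel]
    have hcard : ((range n).biUnion fun s => Ls n (suppN u) j s).card ≤
        ∑ s ∈ range n, V n (suppN u) j s :=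
      Finset.card_biUnion_le.trans (Finset.sum_le_sum fun s _ => card_Ls_le n _ j s)
    refine le_trans ?_ hcard
    apply Finset.card_le_card_of_injOn (fun p : (Fin (d + 1) → ℕ) × ℕ => RL n p.2 p.1 j)
    · rintro ⟨β, s⟩ hp
      rw [Finset.mem_coe, Finset.mem_filter, Finset.mem_product] at hp
      obtain ⟨⟨hβ, hs⟩, hsp⟩ := hp
      rw [Finset.mem_coe, Finset.mem_biUnion]
      refine ⟨(tl β (j + 1) + s) % n, Finset.mem_range.mpr (Nat.mod_lt _ hn), ?_⟩
      apply RL_mem n s hn
      intro i h1 h2 h3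
      rw [mem_suppN] at h3
      by_cases hi : i < d + 1
      · have h4 : u ⟨i, hi⟩ = 0 := by
          by_contra h
          exact h3 ⟨hi, h⟩
        have h5 : (⟨i, hi⟩ : Fin (d + 1)) ≠ 0 := by
          intro h
          have := congrArg Fin.val h
          simp at this
          omega
        have h6 := congrFun hsp ⟨i, hi⟩
        simp only at h6
        rw [Function.update_of_ne h5, h4, sp_ne n s β h5] at h6
        have h7 := div_anti n s β i
        simp only at h6
        omega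
      · rw [tl_ge β i (by omega), tl_ge β (i + 1) (by omega)]
    · rintro ⟨β, s⟩ hp ⟨β', s'⟩ hp' heq
      rw [Finset.mem_coe, Finset.mem_filter, Finset.mem_product] at hp hp'
      obtain ⟨⟨hβ, hs⟩, hsp⟩ := hp
      obtain ⟨⟨hβ', hs'⟩, hsp'⟩ := hp'
      simp only at hβ hs hsp hβ' hs' hsp' heq
      rw [Finset.mem_range] at hs hs'
      have hr := RL_inj n s s' β β' j heq
      have e1 := hr (j + 1) (by omega) le_rfl
      rw [tl_zero_of β (j + 1) (hBx β hβ).2, tl_zero_of β' (j + 1) (hBx β' hβ').2, zero_add, zero_add,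
        Nat.mod_eq_of_lt hs, Nat.mod_eq_of_lt hs'] at e1
      subst e1
      have ht : ∀ i, 1 ≤ i → i ≤ j + 1 → tl β i = tl β' i := by
        intro i h1 h2
        have h3 := hr i h1 h2
        have h4 : (tl β i + s) / n = (tl β' i + s) / n := by
          rw [← tl_sp' n s hs β i h1, ← tl_sp' n s hs β' i h1, ← hsp, ← hsp']
        have h5 := Nat.div_add_mod (tl β i + s) n
        have h6 := Nat.div_add_mod (tl β' i + s) n
        rw [h4, h3] at h5
        omega
      have hb : β = β' := by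
        funext i
        by_cases h0 : i = 0
        · rw [h0, (hBx β hβ).1, (hBx β' hβ').1]
        · have hi1 : 1 ≤ (i : ℕ) := by
            by_contra h
            exact h0 (Fin.ext (by rw [Fin.val_zero]; omega))
          by_cases hi : j + 1 ≤ (i : ℕ)
          · rw [(hBx β hβ).2 i hi, (hBx β' hβ').2 i hi]
          · have h1 := tl_eq β i
            have h2 := tl_eq β' i
            rw [ht i hi1 (by omega), ht (i + 1) (by omega) (by omega)] at h1
            omega
      rw [hb]
  · rw [Nat.le_zero, Finset.card_eq_zero, Finset.filter_eq_empty_iff]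
    rintro ⟨β, s⟩ hp hsp
    rw [Finset.mem_product] at hp
    apply hu
    intro i hi
    have h0 : i ≠ 0 := by
      intro h
      rw [h] at hi
      simp at hi
      omega
    have h1 := congrFun hsp i
    rw [Function.update_of_ne h0] at h1
    rw [h1]
    exact sp_eq_zero n s (Finset.mem_range.mp hp.2) β k (hBx β hp.1).2 i hi

/-- the counting bound -/
theorem count_le (B : Finset (Fin (d + 1) → ℕ)) (n k : ℕ) (hn : 0 < n) (hk : 1 ≤ k)
    (Bx : Finset (Fin (d + 1) → ℕ))
    (hBx : ∀ β ∈ Bx, β 0 = 0 ∧ ∀ i : Fin (d + 1), k ≤ (i : ℕ) → β i = 0) :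
    ∑ β ∈ Bx, ∑ s ∈ range n, gB B (sp n s β) ≤
      ∑ u ∈ B, if (∀ i : Fin (d + 1), k ≤ (i : ℕ) → u i = 0) then
        ∑ s ∈ range n, V n (suppN u) (k - 1) s else 0 := by
  calc ∑ β ∈ Bx, ∑ s ∈ range n, gB B (sp n s β)
      ≤ ∑ β ∈ Bx, ∑ s ∈ range n, (B.filter fun u => Function.update u 0 0 = sp n s β).card :=
        Finset.sum_le_sum fun β _ => Finset.sum_le_sum fun s _ => gB_le B _ (sp_zero n s β)
    _ = ∑ p ∈ Bx ×ˢ range n, ∑ u ∈ B, if Function.update u 0 0 = sp n p.2 p.1 then 1 else 0 := by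
        rw [Finset.sum_product]
        apply Finset.sum_congr rfl
        intro β _
        apply Finset.sum_congr rfl
        intro s _
        rw [Finset.card_filter]
    _ = ∑ u ∈ B, ((Bx ×ˢ range n).filter fun p => Function.update u 0 0 = sp n p.2 p.1).card := by
        rw [Finset.sum_comm]
        apply Finset.sum_congr rfl
        intro u _
        rw [Finset.card_filter]
    _ ≤ _ := Finset.sum_le_sum fun u _ => fiber_le n k hn hk Bx hBx u

end Pool.Agent.U542.Lech
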