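import Mathlib

/-!
# Coefficients of `(exp - 1)^w * exp` and Stirling numbers
-/

set_option autoImplicit false

namespace Pool.Agent.U542.Lech

open PowerSeries Finset

/-- the coefficient of `x^k` in `(e^x-1)^w e^x` -/
noncomputable def eta (k w : ℕ) : ℝ := coeff k ((exp ℝ - 1) ^ w * exp ℝ)

theorem coeff_exp_sub_one (n : ℕ) :
    coeff n (exp ℝ - 1) = if n = 0 then (0 : ℝ) else 1 / (n.factorial : ℝ) := by
  rw [map_sub, coeff_exp, coeff_one]
  split_ifs with h
  · subst h; simp
  · simp

theorem eta_zero (w : ℕ) : eta 0 w = if w = 0 then 1 else 0 := by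
  rw [eta, coeff_zero_eq_constantCoeff_apply, map_mul, map_pow, map_sub]
  simp only [constantCoeff_exp, constantCoeff_one, sub_self, mul_one]
  split_ifs with h
  · subst h; simp
  · rw [zero_pow h]

theorem eta_succ_zero (k : ℕ) : ((k : ℝ) + 1) * eta (k + 1) 0 = eta k 0 := by
  have h : eta (k + 1) 0 * ((k : ℝ) + 1) = eta k 0 := by
    rw [eta, ← coeff_derivative, pow_zero, one_mul, derivative_exp, eta, pow_zero, one_mul]
  rw [← h]; ring

theorem eta_succ (k w : ℕ) :
    ((k : ℝ) + 1) * eta (k + 1) (w + 1) = ((w : ℝ) + 2) * eta k (w + 1) + ((w : ℝ) + 1) * eta k w := by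
  have h : eta (k + 1) (w + 1) * ((k : ℝ) + 1) =
      coeff k (((w : ℝ) + 2) • ((exp ℝ - 1) ^ (w + 1) * exp ℝ) +
        ((w : ℝ) + 1) • ((exp ℝ - 1) ^ w * exp ℝ)) := by
    rw [eta, ← coeff_derivative]
    congr 1
    rw [Derivation.leibniz, derivative_pow, map_sub, derivative_exp, derivative_one, sub_zero]
    simp only [smul_eq_mul, PowerSeries.smul_eq_C_mul, map_add, map_natCast, map_ofNat, map_one,
      Nat.cast_add, Nat.cast_one, Nat.add_sub_cancel]
    ring
  rw [map_add, map_smul, map_smul, smul_eq_mul, smul_eq_mul] at h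
  simp only [eta] at h ⊢
  rw [← h]
  ring

theorem eta_nonneg (k : ℕ) : ∀ w, 0 ≤ eta k w := by
  induction k with
  | zero =>
    intro w
    rw [eta_zero]
    split_ifs <;> norm_num
  | succ k ih =>
    intro w
    have hk : (0 : ℝ) < (k : ℝ) + 1 := by positivity
    rcases w with _ | w
    · have h := eta_succ_zero k
      have h0 := ih 0
      rw [← h] at h0
      exact nonneg_of_mul_nonneg_right h0 hk
    · have h := eta_succ k w
      have h0 : 0 ≤ ((w : ℝ) + 2) * eta k (w + 1) + ((w : ℝ) + 1) * eta k w := by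
        have h1 := ih (w + 1)
        have h2 := ih w
        positivity
      rw [← h] at h0
      exact nonneg_of_mul_nonneg_right h0 hk

/-- the auxiliary coefficients -/
noncomputable def kap (j w : ℕ) : ℝ :=
  if w = 0 then (if j = 0 then 1 else 0) else eta j (w - 1)

theorem kap_nonneg (j w : ℕ) : 0 ≤ kap j w := by
  rw [kap]
  split_ifs
  · norm_num
  · norm_num
  · exact eta_nonneg _ _

theorem kap_succ (j w : ℕ) : kap j (w + 1) = eta j w := by
  rw [kap, if_neg (Nat.succ_ne_zero w)]; rfl

theorem eta_comp (j w : ℕ) :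
    eta (j + 1) w = ∑ b ∈ range (j + 1), kap (j - b) w / ((b + 1).factorial : ℝ) := by
  rcases w with _ | w
  · rw [eta, pow_zero, one_mul, coeff_exp, Finset.sum_range_succ]
    rw [Finset.sum_eq_zero]
    · simp [kap]
    · intro b hb
      rw [Finset.mem_range] at hb
      rw [kap, if_pos rfl, if_neg (by omega), zero_div]
  · have h : (exp ℝ - 1) ^ (w + 1) * exp ℝ = (exp ℝ - 1) * ((exp ℝ - 1) ^ w * exp ℝ) := by ring
    rw [eta, h, coeff_mul, Finset.Nat.sum_antidiagonal_eq_sum_range_succ_mk]
    rw [Finset.sum_range_succ']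
    rw [coeff_exp_sub_one, if_pos rfl, zero_mul, add_zero]
    apply Finset.sum_congr rfl
    intro b hb
    rw [coeff_exp_sub_one, if_neg (Nat.succ_ne_zero b), kap_succ]
    have h2 : j + 1 - (b + 1) = j - b := by omega
    rw [h2]
    simp only [eta]
    ring

/-- the Stirling sum -/
noncomputable def Z (D w : ℕ) : ℝ :=
  ∑ k ∈ range (D + 1), ((ascPochhammer ℕ D).coeff k : ℝ) * ((k.factorial : ℝ) * eta k w)

theorem Z_eq (D : ℕ) : ∀ w, Z D w = (D.factorial : ℝ) * (D.choose w : ℝ) := by
  induction D with
  | zero =>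
    intro w
    rw [Z]
    simp only [zero_add, Finset.sum_range_one, ascPochhammer_zero, Polynomial.coeff_one_zero,
      Nat.cast_one, Nat.factorial_zero, one_mul, eta_zero]
    rcases w with _ | w <;> simp
  | succ D ih =>
    intro w
    have hdeg : (ascPochhammer ℕ D).coeff (D + 1) = 0 := by
      apply Polynomial.coeff_eq_zero_of_natDegree_lt
      rw [ascPochhammer_natDegree]
      exact Nat.lt_succ_self D
    have hrec : ∀ k, (ascPochhammer ℕ (D + 1)).coeff (k + 1) =
        (ascPochhammer ℕ D).coeff k + D * (ascPochhammer ℕ D).coeff (k + 1) := by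
      intro k
      rw [ascPochhammer_succ_right, mul_add, Polynomial.coeff_add, Polynomial.coeff_mul_X,
        ← Polynomial.C_eq_natCast, Polynomial.coeff_mul_C]
      push_cast
      ring
    have hrec0 : (ascPochhammer ℕ (D + 1)).coeff 0 = D * (ascPochhammer ℕ D).coeff 0 := by
      rw [ascPochhammer_succ_right, mul_add, Polynomial.coeff_add, Polynomial.coeff_mul_X_zero,
        ← Polynomial.C_eq_natCast, Polynomial.coeff_mul_C]
      push_cast
      ring
    have h1 : Z (D + 1) w = (∑ k ∈ range (D + 1), ((ascPochhammer ℕ D).coeff k : ℝ) *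
        (((k + 1).factorial : ℝ) * eta (k + 1) w)) + (D : ℝ) * Z D w := by
      rw [Z, Finset.sum_range_succ']
      simp only [hrec, hrec0]
      have h2 : (D : ℝ) * Z D w = (∑ k ∈ range (D + 1), (D : ℝ) *
          (((ascPochhammer ℕ D).coeff (k + 1) : ℝ) * (((k + 1).factorial : ℝ) * eta (k + 1) w))) +
          (D : ℝ) * (((ascPochhammer ℕ D).coeff 0 : ℝ) * (((0 : ℕ).factorial : ℝ) * eta 0 w)) := by
        rw [Finset.sum_range_succ, hdeg]
        rw [Z, Finset.mul_sum, Finset.sum_range_succ']
        simp
      rw [h2]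
      rw [← add_assoc, ← Finset.sum_add_distrib]
      congr 1
      · apply Finset.sum_congr rfl
        intro k _
        push_cast
        ring
      · push_cast
        ring
    rw [h1, ih]
    rcases w with _ | w
    · have h3 : ∑ k ∈ range (D + 1), ((ascPochhammer ℕ D).coeff k : ℝ) *
          (((k + 1).factorial : ℝ) * eta (k + 1) 0) = Z D 0 := by
        rw [Z]
        apply Finset.sum_congr rfl
        intro k _
        rw [Nat.factorial_succ, ← eta_succ_zero k]
        push_cast
        ring
      rw [h3, ih, Nat.factorial_succ]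
      simp
      ring
    · have h3 : ∑ k ∈ range (D + 1), ((ascPochhammer ℕ D).coeff k : ℝ) *
          (((k + 1).factorial : ℝ) * eta (k + 1) (w + 1)) =
          ((w : ℝ) + 2) * Z D (w + 1) + ((w : ℝ) + 1) * Z D w := by
        rw [Z, Z, Finset.mul_sum, Finset.mul_sum, ← Finset.sum_add_distrib]
        apply Finset.sum_congr rfl
        intro k _
        have h4 := eta_succ k w
        rw [Nat.factorial_succ]
        push_cast
        linear_combination ((ascPochhammer ℕ D).coeff k : ℝ) * (k.factorial : ℝ) * h4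
      rw [h3, ih, ih, Nat.factorial_succ, Nat.choose_succ_succ]
      have h5 : ((w : ℝ) + 1) * (D.choose (w + 1) : ℝ) = ((D : ℝ) - w) * (D.choose w : ℝ) := by
        rcases le_or_gt w D with hw | hw
        · have h6 := Nat.choose_succ_right_eq D w
          have h7 : ((D.choose (w + 1) * (w + 1) : ℕ) : ℝ) = ((D.choose w * (D - w) : ℕ) : ℝ) := by
            rw [h6]
          push_cast [Nat.cast_sub hw] at h7
          linear_combination h7
        · rw [Nat.choose_eq_zero_of_lt hw, Nat.choose_eq_zero_of_lt (by omega)]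
          simp
      push_cast
      linear_combination (D.factorial : ℝ) * h5

end Pool.Agent.U542.Lech
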